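import Mathlib

set_option autoImplicit false

open MeasureTheory Filter Topology Set

namespace Pool.Agent.H84R3

/-- The circle `R/Z`. -/
abbrev Circ : Type := AddCircle (1 : ℝ)

/-- `ex x = exp (2 pi i x)` -/
noncomputable def ex (x : ℝ) : ℂ := Complex.exp (Complex.I * ((2 * Real.pi * x : ℝ) : ℂ))

lemma ex_add (x y : ℝ) : ex (x + y) = ex x * ex y := by
  unfold ex
  rw [← Complex.exp_add]
  congr 1
  push_cast
  ring

lemma norm_ex (x : ℝ) : ‖ex x‖ = 1 := by
  unfold ex
  rw [mul_comm]
  exact Complex.norm_exp_ofReal_mul_I _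

lemma ex_int (n : ℤ) : ex n = 1 := by
  unfold ex
  rw [Complex.exp_eq_one_iff]
  exact ⟨n, by push_cast; ring⟩

lemma ex_zero : ex 0 = 1 := by simpa using ex_int 0

lemma norm_ex_sub_le (x y : ℝ) : ‖ex x - ex y‖ ≤ 2 * Real.pi * |x - y| := by
  have h1 : ex x = ex (x - y) * ex y := by rw [← ex_add]; congr 1; ring
  have h2 : ex x - ex y = (ex (x - y) - 1) * ex y := by rw [h1]; ring
  rw [h2, norm_mul, norm_ex, mul_one]
  unfold ex
  refine Real.norm_exp_I_mul_ofReal_sub_one_le.trans ?_
  rw [Real.norm_eq_abs, abs_mul, abs_of_pos (by positivity)]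

lemma ex_fract (k : ℕ) (x : ℝ) : ex (k * x) = ex (k * Int.fract x) := by
  have h : (k : ℝ) * x = k * Int.fract x + ((k * ⌊x⌋ : ℤ) : ℝ) := by
    push_cast
    rw [← mul_add, Int.fract_add_floor]
  rw [h, ex_add, ex_int, mul_one]

lemma fourier_coe_eq (n : ℤ) (x : ℝ) : (fourier n (x : Circ) : ℂ) = ex (n * x) := by
  rw [fourier_coe_apply]
  unfold ex
  congr 1
  push_cast
  ring

/-- uniform distribution mod 1, as in the problem -/
def UD (x : ℕ → ℝ) : Prop :=
  ∀ a b : ℝ, 0 ≤ a → a ≤ b → b ≤ 1 →
    Tendsto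
      (fun N : ℕ =>
        (((Finset.range N).filter
            (fun n => a ≤ Int.fract (x n) ∧ Int.fract (x n) < b)).card : ℝ)
          / (N : ℝ))
      atTop (𝓝 (b - a))

/-- normalized exponential sums -/
noncomputable def A (x : ℕ → ℝ) (k : ℕ) (N : ℕ) : ℂ := (∑ n ∈ Finset.range N, ex (k * x n)) / N

/-- average of a function along a sequence -/
noncomputable def avg (p : ℕ → Circ) (h : Circ → ℂ) (M : ℕ) : ℂ :=
  (∑ m ∈ Finset.range M, h (p m)) / M

lemma integral_fourier_eq_zero {n : ℤ} (hn : n ≠ 0) :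
    ∫ x : Circ, (fourier n x : ℂ) = 0 := by
  have ha : ∃ a : Circ, (fourier n a : ℂ) ≠ 1 := by
    refine ⟨((1 / (2 * n) : ℝ) : Circ), ?_⟩
    rw [fourier_coe_apply]
    have hn' : (n : ℂ) ≠ 0 := by exact_mod_cast hn
    have : 2 * (Real.pi : ℂ) * Complex.I * n * ((1 / (2 * n) : ℝ) : ℂ) / ((1 : ℝ) : ℂ) = Real.pi * Complex.I := by
      push_cast
      field_simp
    rw [this, Complex.exp_pi_mul_I]
    norm_num
  obtain ⟨a, ha⟩ := ha
  have h1 : ∫ x : Circ, (fourier n (x + a) : ℂ) = ∫ x : Circ, (fourier n x : ℂ) :=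
    integral_add_right_eq_self (fun x => (fourier n x : ℂ)) a
  have h2 : ∀ x : Circ, (fourier n (x + a) : ℂ) = fourier n x * fourier n a := by
    intro x
    simp only [fourier_apply]
    rw [smul_add, AddCircle.toCircle_add]; simp
  simp_rw [h2] at h1
  rw [integral_mul_const] at h1
  have h3 : (∫ x : Circ, (fourier n x : ℂ)) * ((fourier n a : ℂ) - 1) = 0 := by
    rw [mul_sub, h1]; ring
  rcases mul_eq_zero.1 h3 with h | h
  · exact h
  · exact absurd (sub_eq_zero.1 h) ha

lemma avg_norm_sub_le (p : ℕ → Circ) (f g : C(Circ, ℂ)) (M : ℕ) :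
    ‖avg p f M - avg p g M‖ ≤ ‖f - g‖ := by
  unfold avg
  rcases Nat.eq_zero_or_pos M with rfl | hM
  · simp
  rw [← sub_div, ← Finset.sum_sub_distrib, norm_div, Complex.norm_natCast]
  rw [div_le_iff₀ (by exact_mod_cast hM)]
  calc ‖∑ m ∈ Finset.range M, (f (p m) - g (p m))‖
      ≤ ∑ m ∈ Finset.range M, ‖f (p m) - g (p m)‖ := norm_sum_le _ _
    _ ≤ ∑ _m ∈ Finset.range M, ‖f - g‖ := by
        gcongr with m _
        exact (f - g).norm_coe_le_norm _
    _ = ‖f - g‖ * M := by simp [mul_comm]

/-- Weyl: convergence of exponential averages gives convergence for continuous functions. -/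
theorem weyl_cont (p : ℕ → Circ)
    (hp : ∀ n : ℤ, n ≠ 0 → Tendsto (fun M => avg p (fun x => (fourier n x : ℂ)) M) atTop (𝓝 0))
    (h : C(Circ, ℂ)) :
    Tendsto (fun M => avg p h M) atTop (𝓝 (∫ x : Circ, h x)) := by
  -- the set of good functions
  have hmem : ∀ f ∈ (Submodule.span ℂ (range <| @fourier 1)),
      Tendsto (fun M => avg p f M) atTop (𝓝 (∫ x : Circ, f x)) := by
    intro f hf
    induction hf using Submodule.span_induction with
    | mem f hf =>
      obtain ⟨n, rfl⟩ := hf
      by_cases hn : n = 0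
      · subst hn
        have : ∀ M : ℕ, 0 < M → avg p (fun x => (fourier 0 x : ℂ)) M = 1 := by
          intro M hM
          unfold avg
          simp only [fourier_zero, Finset.sum_const, Finset.card_range, nsmul_eq_mul, mul_one]
          have : (M : ℂ) ≠ 0 := by exact_mod_cast hM.ne'
          field_simp
        have hint : ∫ x : Circ, (fourier 0 x : ℂ) = 1 := by
          simp [fourier_zero, Measure.real]
        rw [hint]
        refine Tendsto.congr' ?_ tendsto_const_nhds
        filter_upwards [eventually_gt_atTop 0] with M hM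
        exact (this M hM).symm
      · rw [integral_fourier_eq_zero hn]
        exact hp n hn
    | zero =>
      simp [avg]
    | add f g hf hg ihf ihg =>
      have hi : ∫ x : Circ, (f + g) x = (∫ x : Circ, f x) + ∫ x : Circ, g x := by
        have := integral_add (μ := (volume : Measure Circ)) (f := f) (g := g)
          (f.continuous.integrable_of_hasCompactSupport (HasCompactSupport.of_compactSpace _))
          (g.continuous.integrable_of_hasCompactSupport (HasCompactSupport.of_compactSpace _))
        simpa using this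
      rw [hi]
      refine (ihf.add ihg).congr (fun M => ?_)
      unfold avg
      rw [← add_div, ← Finset.sum_add_distrib]; rfl
    | smul c f hf ihf =>
      have hi : ∫ x : Circ, (c • f) x = c * (∫ x : Circ, f x) := by
        simp [integral_const_mul]
      rw [hi]
      refine (ihf.const_mul c).congr (fun M => ?_)
      unfold avg
      simp only [ContinuousMap.coe_smul, Pi.smul_apply, smul_eq_mul]
      rw [← Finset.mul_sum, mul_div_assoc]
  rw [Metric.tendsto_atTop]
  intro ε hε
  have hcl : h ∈ (Submodule.span ℂ (range <| @fourier 1)).topologicalClosure := by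
    rw [span_fourier_closure_eq_top]; trivial
  rw [← SetLike.mem_coe, Submodule.topologicalClosure_coe, Metric.mem_closure_iff] at hcl
  obtain ⟨f, hf, hfd⟩ := hcl (ε / 3) (by positivity)
  have := Metric.tendsto_atTop.1 (hmem f hf) (ε / 3) (by positivity)
  obtain ⟨N, hN⟩ := this
  refine ⟨N, fun M hM => ?_⟩
  have h1 := hN M hM
  have h2 : ‖avg p h M - avg p f M‖ ≤ ‖h - f‖ := avg_norm_sub_le p h f M
  have h3 : ‖(∫ x : Circ, f x) - ∫ x : Circ, h x‖ ≤ ‖h - f‖ := by
    rw [← integral_sub (f.continuous.integrable_of_hasCompactSupport (HasCompactSupport.of_compactSpace _))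
      (h.continuous.integrable_of_hasCompactSupport (HasCompactSupport.of_compactSpace _))]
    calc ‖∫ x : Circ, (f x - h x)‖ ≤ ‖h - f‖ * (volume : Measure Circ).real univ := by
          apply norm_integral_le_of_norm_le_const
          filter_upwards with x
          rw [norm_sub_rev]
          exact (h - f).norm_coe_le_norm x
      _ = ‖h - f‖ := by simp [Measure.real]
  have h4 : ‖h - f‖ < ε / 3 := by rw [← dist_eq_norm]; exact hfd
  calc dist (avg p h M) (∫ x : Circ, h x)
      ≤ dist (avg p h M) (avg p f M) + dist (avg p f M) (∫ x : Circ, f x)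
        + dist (∫ x : Circ, f x) (∫ x : Circ, h x) := dist_triangle4 _ _ _ _
    _ < ε / 3 + ε / 3 + ε / 3 := by
        rw [dist_eq_norm, dist_eq_norm (∫ x : Circ, f x)]
        linarith
    _ = ε := by ring

/-- Upper bound for visits to a closed set. -/
theorem closed_upper (p : ℕ → Circ)
    (hp : ∀ n : ℤ, n ≠ 0 → Tendsto (fun M => avg p (fun x => (fourier n x : ℂ)) M) atTop (𝓝 0))
    {N : Set Circ} (hN : IsClosed N) (v : ℝ) (hv : 0 ≤ v) (hN0 : volume N ≤ ENNReal.ofReal v)
    (ε : ℝ) (hε : 0 < ε) :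
    ∀ᶠ M : ℕ in atTop, ∀ T : Finset ℕ, T ⊆ Finset.range M → (∀ m ∈ T, p m ∈ N) →
      (T.card : ℝ) / M ≤ v + ε := by
  classical
  -- open neighbourhood of small measure
  obtain ⟨U, hNU, hUo, hUv⟩ : ∃ U ⊇ N, IsOpen U ∧ volume U < ENNReal.ofReal (v + ε / 2) :=
    N.exists_isOpen_lt_of_lt _ (lt_of_le_of_lt hN0
      ((ENNReal.ofReal_lt_ofReal_iff (by positivity)).2 (by linarith)))
  obtain ⟨g, hg0, hg1, hg01⟩ := exists_continuous_zero_one_of_isClosed hUo.isClosed_compl hN
    (by rw [disjoint_compl_left_iff_subset]; exact hNU)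
  let h : C(Circ, ℂ) := ⟨fun x => (g x : ℂ), by fun_prop⟩
  have hint : (∫ x : Circ, h x).re ≤ v + ε / 2 := by
    have h1 : ∫ x : Circ, h x = ((∫ x : Circ, g x : ℝ) : ℂ) := by
      simp only [h, ContinuousMap.coe_mk]
      exact integral_ofReal
    rw [h1, Complex.ofReal_re]
    have h2 : ∫ x : Circ, g x ≤ ∫ x : Circ, U.indicator (fun _ => (1 : ℝ)) x := by
      apply integral_mono
      · exact g.continuous.integrable_of_hasCompactSupport (HasCompactSupport.of_compactSpace _)
      · exact (integrable_indicator_iff hUo.measurableSet).2 (integrableOn_const (by simp) )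
      · intro x
        by_cases hx : x ∈ U
        · simp only [hx, indicator_of_mem]; exact (hg01 x).2
        · simp only [hx, not_false_eq_true, indicator_of_notMem]
          exact le_of_eq (hg0 hx)
    rw [integral_indicator hUo.measurableSet] at h2
    simp only [integral_const, MeasurableSet.univ, measureReal_restrict_apply, univ_inter, smul_eq_mul, mul_one] at h2
    refine h2.trans ?_
    rw [Measure.real]
    exact ENNReal.toReal_le_of_le_ofReal (by positivity) hUv.le
  have hw := weyl_cont p hp h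
  have hw' : Tendsto (fun M => (avg p h M).re) atTop (𝓝 (∫ x : Circ, h x).re) :=
    (Complex.continuous_re.tendsto _).comp hw
  have hev : ∀ᶠ M in atTop, (avg p h M).re < v + ε := by
    apply hw'.eventually_lt_const
    linarith
  filter_upwards [hev] with M hM T hT hTN
  refine le_trans ?_ hM.le
  unfold avg
  have : (∑ m ∈ Finset.range M, h (p m)) / (M : ℂ) = (((∑ m ∈ Finset.range M, g (p m)) / M : ℝ) : ℂ) := by
    push_cast; rfl
  rw [this, Complex.ofReal_re]
  gcongr
  calc (T.card : ℝ) = ∑ m ∈ T, (1 : ℝ) := by simp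
    _ = ∑ m ∈ T, g (p m) := by
        apply Finset.sum_congr rfl
        intro m hm
        have := hg1 (hTN m hm)
        simp only [Pi.one_apply] at this
        exact this.symm
    _ ≤ ∑ m ∈ Finset.range M, g (p m) :=
        Finset.sum_le_sum_of_subset_of_nonneg hT (fun m _ _ => (hg01 _).1)

lemma hp_of_weyl (x : ℕ → ℝ) (h : ∀ k : ℕ, 1 ≤ k → Tendsto (fun N => A x k N) atTop (𝓝 0)) :
    ∀ n : ℤ, n ≠ 0 → Tendsto (fun M => avg (fun m => (x m : Circ))
      (fun x => (fourier n x : ℂ)) M) atTop (𝓝 0) := by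
  intro n hn
  rcases lt_or_gt_of_ne hn with hneg | hpos
  · -- negative
    obtain ⟨k, hk⟩ := Int.eq_ofNat_of_zero_le (show 0 ≤ -n by omega)
    have hk1 : 1 ≤ k := by omega
    have h1 := (Complex.continuous_conj.tendsto _).comp (h k hk1)
    simp only [map_zero] at h1
    refine h1.congr (fun M => ?_)
    simp only [Function.comp, A, avg, map_div₀, map_sum, Complex.conj_natCast]
    congr 1
    apply Finset.sum_congr rfl
    intro m _
    have h2 : n = -(k : ℤ) := by omega
    rw [h2, fourier_neg, fourier_coe_eq]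
    simp
  · obtain ⟨k, hk⟩ := Int.eq_ofNat_of_zero_le hpos.le
    have hk1 : 1 ≤ k := by omega
    refine (h k hk1).congr (fun M => ?_)
    simp only [A, avg]
    congr 1
    apply Finset.sum_congr rfl
    intro m _
    rw [hk, fourier_coe_eq]
    simp

lemma upper_interval (x : ℕ → ℝ)
    (h : ∀ k : ℕ, 1 ≤ k → Tendsto (fun N => A x k N) atTop (𝓝 0)) (a b : ℝ)
    (hab : a ≤ b) (ε : ℝ) (hε : 0 < ε) :
    ∀ᶠ N : ℕ in atTop, (((Finset.range N).filter
            (fun n => a ≤ Int.fract (x n) ∧ Int.fract (x n) < b)).card : ℝ)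
          / (N : ℝ) ≤ (b - a) + ε := by
  have h1 := closed_upper (fun m => (x m : Circ)) (hp_of_weyl x h)
    (N := Metric.closedBall (((a + b) / 2 : ℝ) : Circ) ((b - a) / 2)) Metric.isClosed_closedBall
    (b - a) (by linarith) (by
      rw [AddCircle.volume_closedBall]
      apply ENNReal.ofReal_le_ofReal
      refine (min_le_right _ _).trans (by linarith)) ε hε
  filter_upwards [h1] with N hN
  apply hN _ (Finset.filter_subset _ _)
  intro m hm
  rw [Finset.mem_filter] at hm
  obtain ⟨_, hm1, hm2⟩ := hm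
  rw [Metric.mem_closedBall, dist_eq_norm]
  have h2 : ((x m : ℝ) : Circ) = ((Int.fract (x m) : ℝ) : Circ) := by
    rw [← sub_eq_zero, ← AddCircle.coe_sub, AddCircle.coe_eq_zero_iff]
    refine ⟨⌊x m⌋, ?_⟩
    simp [Int.self_sub_fract]
  rw [h2, ← AddCircle.coe_sub]
  refine (QuotientAddGroup.norm_mk_le_norm).trans ?_
  rw [Real.norm_eq_abs, abs_le]
  constructor <;> linarith

theorem ud_of_weyl (x : ℕ → ℝ)
    (h : ∀ k : ℕ, 1 ≤ k → Tendsto (fun N => A x k N) atTop (𝓝 0)) : UD x := by
  intro a b ha hab hb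
  rw [Metric.tendsto_atTop]
  intro ε hε
  have h1 := upper_interval x h 0 a ha (ε / 4) (by positivity)
  have h2 := upper_interval x h a b hab (ε / 4) (by positivity)
  have h3 := upper_interval x h b 1 hb (ε / 4) (by positivity)
  obtain ⟨N0, hN0⟩ := eventually_atTop.1 (h1.and (h2.and (h3.and (eventually_gt_atTop 0))))
  refine ⟨N0, fun N hN => ?_⟩
  obtain ⟨g1, g2, g3, hNpos⟩ := hN0 N hN
  have hNr : (0 : ℝ) < N := by exact_mod_cast hNpos
  set c1 := (((Finset.range N).filter
            (fun n => 0 ≤ Int.fract (x n) ∧ Int.fract (x n) < a)).card : ℝ) with hc1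
  set c2 := (((Finset.range N).filter
            (fun n => a ≤ Int.fract (x n) ∧ Int.fract (x n) < b)).card : ℝ) with hc2
  set c3 := (((Finset.range N).filter
            (fun n => b ≤ Int.fract (x n) ∧ Int.fract (x n) < 1)).card : ℝ) with hc3
  have hsum : c1 + c2 + c3 = N := by
    rw [hc1, hc2, hc3]
    have hcard : (Finset.range N).card = N := Finset.card_range N
    have e1 : (Finset.range N) = ((Finset.range N).filter
            (fun n => 0 ≤ Int.fract (x n) ∧ Int.fract (x n) < a)) ∪
            (((Finset.range N).filter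
            (fun n => a ≤ Int.fract (x n) ∧ Int.fract (x n) < b)) ∪ ((Finset.range N).filter
            (fun n => b ≤ Int.fract (x n) ∧ Int.fract (x n) < 1))) := by
      ext n
      simp only [Finset.mem_union, Finset.mem_filter]
      constructor
      · intro hn
        have f0 := Int.fract_nonneg (x n)
        have f1 := Int.fract_lt_one (x n)
        by_cases ha' : Int.fract (x n) < a
        · left; exact ⟨hn, f0, ha'⟩
        · right
          by_cases hb' : Int.fract (x n) < b
          · left; exact ⟨hn, not_lt.mp ha', hb'⟩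
          · right; exact ⟨hn, not_lt.mp hb', f1⟩
      · rintro (hn | hn | hn) <;> exact hn.1
    have d1 : Disjoint ((Finset.range N).filter
            (fun n => a ≤ Int.fract (x n) ∧ Int.fract (x n) < b)) ((Finset.range N).filter
            (fun n => b ≤ Int.fract (x n) ∧ Int.fract (x n) < 1)) := by
      rw [Finset.disjoint_filter]
      rintro n _ ⟨_, h5⟩ ⟨h6, _⟩
      linarith
    have d2 : Disjoint ((Finset.range N).filter
            (fun n => 0 ≤ Int.fract (x n) ∧ Int.fract (x n) < a)) (((Finset.range N).filter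
            (fun n => a ≤ Int.fract (x n) ∧ Int.fract (x n) < b)) ∪ ((Finset.range N).filter
            (fun n => b ≤ Int.fract (x n) ∧ Int.fract (x n) < 1))) := by
      rw [Finset.disjoint_union_right]
      constructor
      · rw [Finset.disjoint_filter]
        rintro n _ ⟨_, h5⟩ ⟨h6, _⟩
        linarith
      · rw [Finset.disjoint_filter]
        rintro n _ ⟨_, h5⟩ ⟨h6, _⟩
        linarith
    have hc : (Finset.range N).card = _ := congrArg Finset.card e1
    rw [Finset.card_union_of_disjoint d2, Finset.card_union_of_disjoint d1, hcard] at hc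
    have hc' : (N : ℝ) = _ := congrArg (Nat.cast : ℕ → ℝ) hc
    push_cast at hc'
    linarith
  have hsum' : c1 / N + c2 / N + c3 / N = 1 := by
    rw [← add_div, ← add_div, hsum]
    exact div_self hNr.ne'
  rw [Real.dist_eq, abs_lt]
  constructor <;> linarith

lemma sum_roots (m k : ℕ) (hk : 1 ≤ k) (hkm : k < m) :
    ∑ j ∈ Finset.range m, ex (k * (j / m : ℝ)) = 0 := by
  have hm : (0 : ℝ) < m := by exact_mod_cast (by omega : 0 < m)
  set z : ℂ := ex (k / m : ℝ) with hz
  have h1 : ∀ j : ℕ, ex (k * (j / m : ℝ)) = z ^ j := by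
    intro j
    induction j with
    | zero => simp [ex_zero]
    | succ j ih =>
      rw [pow_succ, ← ih, hz, ← ex_add]
      congr 1
      push_cast
      field_simp
  have hzm : z ^ m = 1 := by
    rw [← h1 m]
    have : (k : ℝ) * (m / m : ℝ) = ((k : ℤ) : ℝ) := by
      rw [div_self hm.ne']; simp
    rw [this]
    exact ex_int k
  have hz1 : z ≠ 1 := by
    intro hc
    rw [hz] at hc
    unfold ex at hc
    rw [Complex.exp_eq_one_iff] at hc
    obtain ⟨n, hn⟩ := hc
    have h2 : ((k / m : ℝ) : ℂ) = (n : ℂ) := by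
      have hpi : (Real.pi : ℂ) ≠ 0 := by exact_mod_cast Real.pi_ne_zero
      have hI : Complex.I ≠ 0 := Complex.I_ne_zero
      have h3 : (2 * (Real.pi : ℂ) * Complex.I) * ((k / m : ℝ) : ℂ) = (2 * (Real.pi : ℂ) * Complex.I) * n := by
        push_cast at hn ⊢
        linear_combination hn
      exact mul_left_cancel₀ (by simp [hpi, hI]) h3
    have h3 : (k / m : ℝ) = (n : ℝ) := by exact_mod_cast h2
    have h4 : (0 : ℝ) < k / m := by
      have : (0 : ℝ) < k := by exact_mod_cast hk
      positivity
    have h5 : (k / m : ℝ) < 1 := by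
      rw [div_lt_one hm]; exact_mod_cast hkm
    rw [h3] at h4 h5
    have h6 : (0 : ℤ) < n := by exact_mod_cast h4
    have h7 : n < (1 : ℤ) := by exact_mod_cast h5
    omega
  simp_rw [h1]
  rw [geom_sum_eq hz1, hzm]
  simp

theorem weyl_of_ud (x : ℕ → ℝ) (h : UD x) (k : ℕ) (hk : 1 ≤ k) :
    Tendsto (fun N => A x k N) atTop (𝓝 0) := by
  rw [Metric.tendsto_atTop]
  intro ε hε
  -- choose m
  obtain ⟨m, hm⟩ := exists_nat_gt (max (k : ℝ) (4 * Real.pi * k / ε))
  have hkm : k < m := by
    have := (le_max_left _ _).trans_lt hm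
    exact_mod_cast this
  have hm0 : 0 < m := by omega
  have hmr : (0 : ℝ) < m := by exact_mod_cast hm0
  have hm2 : 2 * Real.pi * k / m < ε / 2 := by
    have h1 : 4 * Real.pi * k / ε < m := (le_max_right _ _).trans_lt hm
    rw [div_lt_iff₀ hε] at h1
    rw [div_lt_iff₀ hmr]
    linarith
  -- cell counts
  let c : ℕ → ℕ → ℝ := fun j N => (((Finset.range N).filter
            (fun n => (j / m : ℝ) ≤ Int.fract (x n) ∧ Int.fract (x n) < ((j + 1 : ℕ) / m : ℝ))).card : ℝ)
  have hc : ∀ j < m, Tendsto (fun N : ℕ => c j N / N) atTop (𝓝 (1 / m)) := by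
    intro j hj
    have h1 := h (j / m) ((j + 1 : ℕ) / m) (by positivity) (by
      gcongr; push_cast; linarith) (by
      rw [div_le_one hmr]; exact_mod_cast hj)
    have h2 : (((j + 1 : ℕ) : ℝ) / m - j / m) = 1 / m := by
      push_cast
      field_simp
      ring
    rw [h2] at h1
    exact h1
  have hS : Tendsto (fun N : ℕ => ∑ j ∈ Finset.range m, ex (k * (j / m : ℝ)) * ((c j N / N : ℝ) : ℂ))
      atTop (𝓝 0) := by
    have h1 : Tendsto (fun N : ℕ => ∑ j ∈ Finset.range m, ex (k * (j / m : ℝ)) * ((c j N / N : ℝ) : ℂ))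
      atTop (𝓝 (∑ j ∈ Finset.range m, ex (k * (j / m : ℝ)) * ((1 / m : ℝ) : ℂ))) := by
      apply tendsto_finsetSum
      intro j hj
      rw [Finset.mem_range] at hj
      apply Tendsto.const_mul
      exact (Complex.continuous_ofReal.tendsto _).comp (hc j hj)
    rw [← Finset.sum_mul, sum_roots m k hk hkm, zero_mul] at h1
    exact h1
  obtain ⟨N0, hN0⟩ := Metric.tendsto_atTop.1 hS (ε / 2) (by positivity)
  refine ⟨max N0 1, fun N hN => ?_⟩
  have hNpos : 0 < N := by
    have := (le_max_right N0 1).trans hN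
    omega
  have hNr : (0 : ℝ) < N := by exact_mod_cast hNpos
  have h5 := hN0 N ((le_max_left _ _).trans hN)
  rw [dist_zero_right] at h5 ⊢
  -- the cell of a term
  let J : ℕ → ℕ := fun n => ⌊(m : ℝ) * Int.fract (x n)⌋₊
  have hJlt : ∀ n, J n < m := by
    intro n
    have h6 : (m : ℝ) * Int.fract (x n) < m := by
      have := Int.fract_lt_one (x n)
      nlinarith
    exact (Nat.floor_lt (by have := Int.fract_nonneg (x n); positivity)).2 h6
  have hJle : ∀ n, (J n / m : ℝ) ≤ Int.fract (x n) := by
    intro n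
    rw [div_le_iff₀ hmr, mul_comm]
    exact Nat.floor_le (by have := Int.fract_nonneg (x n); positivity)
  have hJlt' : ∀ n, Int.fract (x n) < ((J n + 1 : ℕ) / m : ℝ) := by
    intro n
    rw [lt_div_iff₀ hmr, mul_comm]
    push_cast
    exact Nat.lt_floor_add_one _
  have hcell : ∀ n j : ℕ, ((j / m : ℝ) ≤ Int.fract (x n) ∧ Int.fract (x n) < ((j + 1 : ℕ) / m : ℝ)) ↔
      J n = j := by
    intro n j
    constructor
    · rintro ⟨h6, h7⟩
      rw [div_le_iff₀ hmr, mul_comm] at h6
      rw [lt_div_iff₀ hmr, mul_comm] at h7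
      push_cast at h7
      exact (Nat.floor_eq_iff (by have := Int.fract_nonneg (x n); positivity)).2 ⟨h6, h7⟩
    · intro h6
      rw [← h6]
      exact ⟨hJle n, hJlt' n⟩
  have hfib : ∑ n ∈ Finset.range N, ex (k * (J n / m : ℝ)) =
      ∑ j ∈ Finset.range m, ex (k * (j / m : ℝ)) * (c j N : ℂ) := by
    rw [← Finset.sum_fiberwise_of_maps_to (s := Finset.range N) (t := Finset.range m) (g := J)
      (fun n _ => Finset.mem_range.2 (hJlt n))]
    apply Finset.sum_congr rfl
    intro j _
    have h6 : ∀ n ∈ (Finset.range N).filter (fun n => J n = j), ex (k * (J n / m : ℝ)) =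
        ex (k * (j / m : ℝ)) := by
      intro n hn
      rw [(Finset.mem_filter.1 hn).2]
    rw [Finset.sum_congr rfl h6, Finset.sum_const, nsmul_eq_mul, mul_comm]
    congr 1
    simp only [c]
    simp_rw [hcell]
    simp
  have hdiff : ‖A x k N - ∑ j ∈ Finset.range m, ex (k * (j / m : ℝ)) * ((c j N / N : ℝ) : ℂ)‖ ≤
      2 * Real.pi * k / m := by
    have h6 : (∑ j ∈ Finset.range m, ex (k * (j / m : ℝ)) * ((c j N / N : ℝ) : ℂ)) =
        (∑ n ∈ Finset.range N, ex (k * (J n / m : ℝ))) / N := by
      rw [hfib, Finset.sum_div]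
      apply Finset.sum_congr rfl
      intro j _
      push_cast
      ring
    rw [h6]
    unfold A
    rw [← sub_div, ← Finset.sum_sub_distrib, norm_div, Complex.norm_natCast, div_le_iff₀ hNr]
    calc ‖∑ n ∈ Finset.range N, (ex (k * x n) - ex (k * (J n / m : ℝ)))‖
        ≤ ∑ n ∈ Finset.range N, ‖ex (k * x n) - ex (k * (J n / m : ℝ))‖ := norm_sum_le _ _
      _ ≤ ∑ n ∈ Finset.range N, 2 * Real.pi * k / m := by
          apply Finset.sum_le_sum
          intro n _
          rw [ex_fract]
          refine (norm_ex_sub_le _ _).trans ?_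
          rw [← mul_sub, abs_mul, Nat.abs_cast]
          have h7 : |Int.fract (x n) - (J n / m : ℝ)| ≤ 1 / m := by
            have h8 := hJle n
            have h9 := hJlt' n
            push_cast at h9
            rw [abs_le]
            constructor
            · have : (0 : ℝ) ≤ 1 / m := by positivity
              linarith
            · rw [add_div] at h9
              linarith
          calc 2 * Real.pi * (k * |Int.fract (x n) - (J n / m : ℝ)|)
              ≤ 2 * Real.pi * (k * (1 / m)) := by gcongr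
            _ = 2 * Real.pi * k / m := by ring
      _ = 2 * Real.pi * k / m * N := by simp [mul_comm]
  calc ‖A x k N‖ = ‖(A x k N - ∑ j ∈ Finset.range m, ex (k * (j / m : ℝ)) * ((c j N / N : ℝ) : ℂ)) +
      ∑ j ∈ Finset.range m, ex (k * (j / m : ℝ)) * ((c j N / N : ℝ) : ℂ)‖ := by rw [sub_add_cancel]
    _ ≤ ‖A x k N - ∑ j ∈ Finset.range m, ex (k * (j / m : ℝ)) * ((c j N / N : ℝ) : ℂ)‖ +
      ‖∑ j ∈ Finset.range m, ex (k * (j / m : ℝ)) * ((c j N / N : ℝ) : ℂ)‖ := norm_add_le _ _
    _ < ε / 2 + ε / 2 := by linarith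
    _ = ε := by ring

end Pool.Agent.H84R3
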