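import Pool.Agent.H84R3.Blocks

set_option autoImplicit false

open MeasureTheory Filter Topology Set

namespace Pool.Agent.H84R3

/-- block structure of a sequence -/
structure BlockData (x : ℕ → ℝ) (y R Q T l : ℕ → ℕ) (M s : ℕ) : Prop where
  hT0 : T 0 = 0
  hT : ∀ n : ℕ, T (n+1) = T n + R n + Q n
  hU : ∀ n k m : ℕ, 1 ≤ k → k ≤ n + 1 → m ≤ R n →
    ‖∑ i ∈ Finset.Ico (T n) (T n + m), ex (k * x i)‖ ≤ (m : ℝ) / ((n + 1 : ℕ) : ℝ) + l n
  hB : ∀ n : ℕ, 2 * (Q n : ℝ) ≤ ∑ i ∈ Finset.Ico (T n + R n) (T n + R n + Q n), Fj M (x i)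
  hQ1 : ∀ n : ℕ, Q n * (y n + 1) ≤ R n
  hQ2 : ∀ n : ℕ, R n ≤ (y n + 1) * (Q n + s)
  hG1 : ∀ n : ℕ, (n + 1) * T n ≤ R n
  hG2 : ∀ n : ℕ, 1 ≤ n → (n + 1) * l n ≤ T n
  hG3 : ∀ n : ℕ, (n + 1) * l n ≤ R n
  hG4 : ∀ n : ℕ, (n + 1) * s ≤ R n
  hs : 1 ≤ s
  hM : 1 ≤ M

variable {x : ℕ → ℝ} {y R Q T l : ℕ → ℕ} {M s : ℕ}

lemma div_le_of_mul_le {a b c : ℕ} (hb : 0 < b) (h : b * a ≤ c) : (a : ℝ) ≤ (c : ℝ) / b := by
  rw [le_div_iff₀ (by exact_mod_cast hb)]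
  rw [mul_comm]
  exact_mod_cast h

namespace BlockData

variable (h : BlockData x y R Q T l M s)

include h

lemma R_pos (n : ℕ) : 1 ≤ R n := by
  have h1 := h.hG4 n
  have h2 := h.hs
  nlinarith

lemma T_strict : StrictMono T := by
  apply strictMono_nat_of_lt_succ
  intro n
  have h1 := h.R_pos n
  have h2 := h.hT n
  omega

lemma within (n k : ℕ) (hk1 : 1 ≤ k) (hk2 : k ≤ n) (hn : 1 ≤ n) (N : ℕ) (hN1 : T n ≤ N)
    (hN2 : N < T (n+1)) :
    ‖∑ i ∈ Finset.Ico (T n) N, ex (k * x i)‖ ≤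
      N * (2 / ((n + 1 : ℕ) : ℝ) + 1 / ((y n + 1 : ℕ) : ℝ)) := by
  have hn1 : (0 : ℝ) < ((n + 1 : ℕ) : ℝ) := by positivity
  have hy1 : (0 : ℝ) < ((y n + 1 : ℕ) : ℝ) := by positivity
  have hl : (l n : ℝ) ≤ (N : ℝ) / ((n + 1 : ℕ) : ℝ) :=
    div_le_of_mul_le (by omega) ((h.hG2 n hn).trans hN1)
  by_cases hc : N ≤ T n + R n
  · obtain ⟨m, rfl⟩ := Nat.exists_eq_add_of_le hN1
    have h1 := h.hU n k m hk1 (by omega) (by omega)
    refine h1.trans ?_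
    have h2 : (m : ℝ) / ((n + 1 : ℕ) : ℝ) ≤ ((T n + m : ℕ) : ℝ) / ((n + 1 : ℕ) : ℝ) := by
      apply div_le_div_of_nonneg_right _ hn1.le
      push_cast
      have : (0 : ℝ) ≤ T n := by positivity
      linarith
    have h3 : (0 : ℝ) ≤ ((T n + m : ℕ) : ℝ) * (1 / ((y n + 1 : ℕ) : ℝ)) := by positivity
    have h4 : ((T n + m : ℕ) : ℝ) * (2 / ((n + 1 : ℕ) : ℝ) + 1 / ((y n + 1 : ℕ) : ℝ)) =
      ((T n + m : ℕ) : ℝ) / ((n + 1 : ℕ) : ℝ) + ((T n + m : ℕ) : ℝ) / ((n + 1 : ℕ) : ℝ) +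
        ((T n + m : ℕ) : ℝ) * (1 / ((y n + 1 : ℕ) : ℝ)) := by ring
    rw [h4]
    linarith
  · push Not at hc
    rw [← Finset.sum_Ico_consecutive _ (by omega : T n ≤ T n + R n) hc.le]
    refine (norm_add_le _ _).trans ?_
    have h1 := h.hU n k (R n) hk1 (by omega) le_rfl
    have h2 := Ico_sum_norm_le x k (T n + R n) N hc.le
    have h3 : ((N : ℝ) - ((T n + R n : ℕ) : ℝ)) ≤ Q n := by
      have h4 := h.hT n
      have h5 : N ≤ T n + R n + Q n := by omega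
      have h6 : (N : ℝ) ≤ ((T n + R n + Q n : ℕ) : ℝ) := by exact_mod_cast h5
      push_cast at h6 ⊢
      linarith
    have hRN : R n ≤ N := by omega
    have h4 : (Q n : ℝ) ≤ (N : ℝ) / ((y n + 1 : ℕ) : ℝ) := by
      apply div_le_of_mul_le (by omega)
      have := h.hQ1 n
      rw [mul_comm] at this
      omega
    have h5 : (R n : ℝ) / ((n + 1 : ℕ) : ℝ) ≤ (N : ℝ) / ((n + 1 : ℕ) : ℝ) := by
      apply div_le_div_of_nonneg_right _ hn1.le
      exact_mod_cast hRN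
    have h6 : (N : ℝ) * (2 / ((n + 1 : ℕ) : ℝ) + 1 / ((y n + 1 : ℕ) : ℝ)) =
      (N : ℝ) / ((n + 1 : ℕ) : ℝ) + (N : ℝ) / ((n + 1 : ℕ) : ℝ) +
        (N : ℝ) / ((y n + 1 : ℕ) : ℝ) := by ring
    rw [h6]
    linarith

lemma upto (n k : ℕ) (hk1 : 1 ≤ k) (hk2 : k ≤ n + 1) :
    ‖∑ i ∈ Finset.range (T (n+1)), ex (k * x i)‖ ≤
      T (n+1) * (3 / ((n + 1 : ℕ) : ℝ) + 1 / ((y n + 1 : ℕ) : ℝ)) := by
  have hn1 : (0 : ℝ) < ((n + 1 : ℕ) : ℝ) := by positivity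
  have hy1 : (0 : ℝ) < ((y n + 1 : ℕ) : ℝ) := by positivity
  have hTT := h.hT n
  have hRT : R n ≤ T (n+1) := by omega
  rw [Finset.range_eq_Ico, ← Finset.sum_Ico_consecutive _ (Nat.zero_le (T n)) (by omega : T n ≤ T (n+1)),
    ← Finset.sum_Ico_consecutive _ (by omega : T n ≤ T n + R n) (by omega : T n + R n ≤ T (n+1))]
  refine (norm_add_le _ _).trans ?_
  have h0 := Ico_sum_norm_le x k 0 (T n) (Nat.zero_le _)
  have h1 := h.hU n k (R n) hk1 hk2 le_rfl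
  have h2 := Ico_sum_norm_le x k (T n + R n) (T (n+1)) (by omega)
  have h3 := norm_add_le (∑ i ∈ Finset.Ico (T n) (T n + R n), ex (k * x i))
    (∑ i ∈ Finset.Ico (T n + R n) (T (n+1)), ex (k * x i))
  have h4 : (T n : ℝ) ≤ (T (n+1) : ℝ) / ((n + 1 : ℕ) : ℝ) :=
    div_le_of_mul_le (by omega) ((h.hG1 n).trans hRT)
  have h5 : (l n : ℝ) ≤ (T (n+1) : ℝ) / ((n + 1 : ℕ) : ℝ) :=
    div_le_of_mul_le (by omega) ((h.hG3 n).trans hRT)
  have h6 : (R n : ℝ) / ((n + 1 : ℕ) : ℝ) ≤ (T (n+1) : ℝ) / ((n + 1 : ℕ) : ℝ) := by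
    apply div_le_div_of_nonneg_right _ hn1.le
    exact_mod_cast hRT
  have h7 : ((T (n+1) : ℝ) - ((T n + R n : ℕ) : ℝ)) ≤ (T (n+1) : ℝ) / ((y n + 1 : ℕ) : ℝ) := by
    have h8 : ((T (n+1) : ℝ) - ((T n + R n : ℕ) : ℝ)) = Q n := by
      rw [hTT]; push_cast; ring
    rw [h8]
    apply div_le_of_mul_le (by omega)
    have := h.hQ1 n
    rw [mul_comm] at this
    omega
  have h8 : (T (n+1) : ℝ) * (3 / ((n + 1 : ℕ) : ℝ) + 1 / ((y n + 1 : ℕ) : ℝ)) =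
      (T (n+1) : ℝ) / ((n + 1 : ℕ) : ℝ) + (T (n+1) : ℝ) / ((n + 1 : ℕ) : ℝ) +
      (T (n+1) : ℝ) / ((n + 1 : ℕ) : ℝ) + (T (n+1) : ℝ) / ((y n + 1 : ℕ) : ℝ) := by ring
  rw [h8]
  simp only [Nat.cast_zero, sub_zero] at h0
  linarith

theorem tendsto_of_tendsto (hy : Tendsto y atTop atTop) (k : ℕ) (hk : 1 ≤ k) :
    Tendsto (fun N => A x k N) atTop (𝓝 0) := by
  rw [Metric.tendsto_atTop]
  intro ε hε
  -- choose n0
  obtain ⟨B, hB⟩ := exists_nat_gt (10 / ε)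
  have hBpos : (0 : ℝ) < B := lt_trans (by positivity) hB
  have hB2 : 10 / (B : ℝ) < ε := by
    rw [div_lt_iff₀ hε] at hB
    rw [div_lt_iff₀ hBpos]
    linarith
  have hy2 : ∀ᶠ n in atTop, B ≤ y n := hy.eventually_ge_atTop B
  obtain ⟨n1, hn1⟩ := eventually_atTop.1 hy2
  set n0 := n1 + k + B + 1 with hn0
  refine ⟨T n0 + 1, fun N hN => ?_⟩
  have hNpos : 0 < N := by omega
  have hNr : (0 : ℝ) < N := by exact_mod_cast hNpos
  -- locate N
  have hex : ∃ p, N < T p := ⟨N + 1, lt_of_lt_of_le (Nat.lt_succ_self N) (h.T_strict.id_le (N+1))⟩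
  obtain ⟨p, hp, hmin⟩ : ∃ p, N < T p ∧ ∀ p' < p, ¬ (N < T p') :=
    ⟨Nat.find hex, Nat.find_spec hex, fun p' hp' => Nat.find_min hex hp'⟩
  have hpn0 : n0 < p := by
    by_contra hc
    have : T p ≤ T n0 := h.T_strict.monotone (not_lt.mp hc)
    omega
  obtain ⟨n, rfl⟩ : ∃ n, p = n + 2 := ⟨p - 2, by omega⟩
  have hTn : T (n+1) ≤ N := not_lt.mp (hmin (n+1) (by omega))
  have h1 := h.within (n+1) k hk (by omega) (by omega) N hTn hp
  have h2 := h.upto n k hk (by omega)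
  rw [dist_zero_right]
  unfold A
  rw [norm_div, Complex.norm_natCast, div_lt_iff₀ hNr, Finset.range_eq_Ico,
    ← Finset.sum_Ico_consecutive _ (Nat.zero_le (T (n+1))) hTn, ← Finset.range_eq_Ico]
  refine lt_of_le_of_lt (norm_add_le _ _) ?_
  have hBle : ∀ m : ℕ, B ≤ m → (1 : ℝ) / (m : ℝ) ≤ 1 / B := by
    intro m hm
    apply one_div_le_one_div_of_le hBpos
    exact_mod_cast hm
  have e1 := hBle (n + 1) (by omega)
  have e2 := hBle (n + 1 + 1) (by omega)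
  have e3 := hBle (y n + 1) (by have := hn1 n (by omega); omega)
  have e4 := hBle (y (n+1) + 1) (by have := hn1 (n+1) (by omega); omega)
  have f1 : (3 : ℝ) / ((n + 1 : ℕ) : ℝ) + 1 / ((y n + 1 : ℕ) : ℝ) ≤ 4 * (1 / B) := by
    have : (3 : ℝ) / ((n + 1 : ℕ) : ℝ) = 3 * (1 / ((n + 1 : ℕ) : ℝ)) := by ring
    rw [this]; linarith
  have f2 : (2 : ℝ) / ((n + 1 + 1 : ℕ) : ℝ) + 1 / ((y (n+1) + 1 : ℕ) : ℝ) ≤ 3 * (1 / B) := by
    have : (2 : ℝ) / ((n + 1 + 1 : ℕ) : ℝ) = 2 * (1 / ((n + 1 + 1 : ℕ) : ℝ)) := by ring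
    rw [this]; linarith
  have hTN : (T (n+1) : ℝ) ≤ N := by exact_mod_cast hTn
  have hBinv : (0 : ℝ) < 1 / B := by positivity
  calc _ ≤ (T (n+1) : ℝ) * (3 / ((n + 1 : ℕ) : ℝ) + 1 / ((y n + 1 : ℕ) : ℝ)) +
        N * (2 / ((n + 1 + 1 : ℕ) : ℝ) + 1 / ((y (n+1) + 1 : ℕ) : ℝ)) := add_le_add h2 h1
    _ ≤ (N : ℝ) * (4 * (1 / B)) + N * (3 * (1 / B)) := by
        apply add_le_add
        · calc (T (n+1) : ℝ) * (3 / ((n + 1 : ℕ) : ℝ) + 1 / ((y n + 1 : ℕ) : ℝ))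
              ≤ (T (n+1) : ℝ) * (4 * (1 / B)) := by gcongr
            _ ≤ N * (4 * (1 / B)) := by gcongr
        · gcongr
    _ = N * (7 / B) := by ring
    _ ≤ N * (10 / B) := by gcongr; norm_num
    _ < ε * N := by
        rw [mul_comm ε]
        gcongr

theorem tendsto_y_of_tendsto (hA : ∀ k, 1 ≤ k → Tendsto (fun N => A x k N) atTop (𝓝 0)) :
    Tendsto y atTop atTop := by
  by_contra hcon
  rw [tendsto_atTop_atTop] at hcon
  push Not at hcon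
  obtain ⟨v, hv⟩ := hcon
  have hMr : (1 : ℝ) ≤ M := by exact_mod_cast h.hM
  set δ : ℝ := 1 / (16 * M * (v + 1)) with hδ
  have hδpos : 0 < δ := by positivity
  -- uniform N0
  have hN0 : ∀ᶠ N : ℕ in atTop, ∀ k : ℕ, 1 ≤ k → k < M →
      ‖∑ i ∈ Finset.range N, ex (k * x i)‖ ≤ δ * N := by
    have h1 : ∀ k ∈ Finset.range M, ∀ᶠ N : ℕ in atTop, 1 ≤ k →
        ‖∑ i ∈ Finset.range N, ex (k * x i)‖ ≤ δ * N := by
      intro k _
      by_cases hk : 1 ≤ k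
      · have h2 := (Metric.tendsto_nhds.1 (hA k hk)) δ hδpos
        filter_upwards [h2, eventually_gt_atTop 0] with N hN hNpos _
        rw [dist_zero_right] at hN
        unfold A at hN
        have hNr : (0 : ℝ) < N := by exact_mod_cast hNpos
        rw [norm_div, Complex.norm_natCast, div_lt_iff₀ hNr] at hN
        exact hN.le
      · exact Eventually.of_forall (fun N hk' => absurd hk' hk)
    have h2 := (Finset.eventually_all (Finset.range M)).2 h1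
    filter_upwards [h2] with N hN k hk1 hk2
    exact hN k (Finset.mem_range.2 hk2) hk1
  obtain ⟨N0, hN0⟩ := eventually_atTop.1 hN0
  obtain ⟨n, hn, hyn⟩ := hv (N0 + M + 4 * (M + 1) * (v + 1))
  -- the time N = T (n+1)
  have hTn : n + 1 ≤ T (n+1) := h.T_strict.id_le (n+1)
  have h1 := Fj_sum M h.hM x (Finset.range (T (n+1))) (δ * T (n+1))
    (fun k hk1 hk2 => hN0 (T (n+1)) (by omega) k hk1 hk2) (by positivity)
  have h2 := Fj_sum M h.hM x (Finset.Ico (T n) (T n + R n)) ((R n : ℝ) / ((n + 1 : ℕ) : ℝ) + l n)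
    (fun k hk1 hk2 => h.hU n k (R n) hk1 (by omega) le_rfl) (by positivity)
  have h3 := h.hB n
  rw [Finset.card_range, abs_le] at h1
  rw [Nat.card_Ico, abs_le] at h2
  have hsplit : ∑ i ∈ Finset.range (T (n+1)), Fj M (x i) =
      ∑ i ∈ Finset.Ico 0 (T n), Fj M (x i) + (∑ i ∈ Finset.Ico (T n) (T n + R n), Fj M (x i) +
        ∑ i ∈ Finset.Ico (T n + R n) (T n + R n + Q n), Fj M (x i)) := by
    rw [Finset.sum_Ico_consecutive _ (by omega : T n ≤ T n + R n) (by omega),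
      Finset.sum_Ico_consecutive _ (by omega) (by omega), Finset.range_eq_Ico, h.hT n]
  have hnn : 0 ≤ ∑ i ∈ Finset.Ico 0 (T n), Fj M (x i) := Finset.sum_nonneg (fun _ _ => Fj_nonneg _ _)
  set Rr : ℝ := (R n : ℝ) with hRr
  set Qr : ℝ := (Q n : ℝ) with hQr
  set w : ℝ := 1 / ((n + 1 : ℕ) : ℝ) with hw
  have hw0 : 0 < w := by positivity
  have hR1 : (1 : ℝ) ≤ Rr := by rw [hRr]; exact_mod_cast h.R_pos n
  have hQ0 : 0 ≤ Qr := by positivity
  have g1 : (l n : ℝ) ≤ Rr * w := by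
    have := div_le_of_mul_le (by omega) (h.hG3 n)
    rw [hw, mul_one_div]; exact this
  have g2 : (T n : ℝ) ≤ Rr * w := by
    have := div_le_of_mul_le (by omega) (h.hG1 n)
    rw [hw, mul_one_div]; exact this
  have g3 : (s : ℝ) ≤ Rr * w := by
    have := div_le_of_mul_le (by omega) (h.hG4 n)
    rw [hw, mul_one_div]; exact this
  have g4 : Rr ≤ (v + 1) * (Qr + s) := by
    have h5 := h.hQ2 n
    have h6 : (R n : ℝ) ≤ ((y n + 1 : ℕ) : ℝ) * ((Q n + s : ℕ) : ℝ) := by exact_mod_cast h5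
    refine h6.trans ?_
    push_cast
    have : (y n : ℝ) ≤ v := by exact_mod_cast hyn.le
    gcongr
  have hTr : (T (n+1) : ℝ) = T n + Rr + Qr := by
    rw [h.hT n]; push_cast; ring
  have hcard : ((T n + R n - T n : ℕ) : ℝ) = Rr := by
    have : T n + R n - T n = R n := by omega
    rw [this]
  rw [hcard] at h2
  have h2' : Rr / ((n + 1 : ℕ) : ℝ) = Rr * w := by rw [hw]; ring
  rw [h2'] at h2
  have hMδ : (M : ℝ) * δ = 1 / (16 * (v + 1)) := by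
    rw [hδ]; field_simp
  set e : ℝ := 1 / (16 * (v + 1)) with he
  have he0 : 0 < e := by positivity
  have he1 : e ≤ 1 / 16 := by
    rw [he]
    apply one_div_le_one_div_of_le (by norm_num)
    have : (0 : ℝ) ≤ v := by positivity
    linarith
  have hve : (v + 1 : ℝ) * e = 1 / 16 := by rw [he]; field_simp
  -- main inequality
  have m1 : Rr - M * (Rr * w + Rr * w) + 2 * Qr ≤ (1 + e) * (Rr * w + Rr + Qr) := by
    have a1 : (∑ i ∈ Finset.range (T (n+1)), Fj M (x i)) ≤ T (n+1) + M * (δ * T (n+1)) := by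
      linarith [h1.2]
    have a2 : Rr - M * (Rr * w + l n) ≤ ∑ i ∈ Finset.Ico (T n) (T n + R n), Fj M (x i) := by
      linarith [h2.1]
    have a3 : (M : ℝ) * (Rr * w + l n) ≤ M * (Rr * w + Rr * w) := by gcongr
    have a4 : (T (n+1) : ℝ) + M * (δ * T (n+1)) = (1 + e) * T (n+1) := by
      rw [← mul_assoc, hMδ]; ring
    have a5 : (T (n+1) : ℝ) ≤ Rr * w + Rr + Qr := by rw [hTr]; linarith
    have a6 : (1 + e) * (T (n+1) : ℝ) ≤ (1 + e) * (Rr * w + Rr + Qr) := by gcongr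
    rw [a4] at a1
    rw [hsplit] at a1
    linarith
  have m2 : Qr * (1 - e) ≤ Rr * ((1 + e) * w + e + 2 * M * w) := by linarith
  have m3 : Rr * (16 * e) ≤ Qr + Rr * w := by
    have b1 : Rr * (16 * e) ≤ (v + 1) * (Qr + s) * (16 * e) := by gcongr
    have b2 : ((v : ℝ) + 1) * (Qr + s) * (16 * e) = Qr + s := by
      have : ((v : ℝ) + 1) * (Qr + s) * (16 * e) = (Qr + s) * 16 * ((v + 1) * e) := by ring
      rw [this, hve]; ring
    linarith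
  have m4 : (16 * e - w) * (1 - e) ≤ (1 + e) * w + e + 2 * M * w := by
    have c1 : Rr * ((16 * e - w) * (1 - e)) ≤ Rr * ((1 + e) * w + e + 2 * M * w) := by
      have : Rr * (16 * e - w) ≤ Qr := by linarith
      calc Rr * ((16 * e - w) * (1 - e)) = (Rr * (16 * e - w)) * (1 - e) := by ring
        _ ≤ Qr * (1 - e) := by
            apply mul_le_mul_of_nonneg_right this; linarith
        _ ≤ _ := m2
    exact le_of_mul_le_mul_left c1 (by linarith)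
  have m5 : 14 * e ≤ (2 + 2 * M) * w := by nlinarith
  -- w small
  have m6 : w * (4 * (M + 1) * (v + 1)) ≤ 1 := by
    rw [hw, one_div, inv_mul_le_iff₀ (by positivity)]
    have : 4 * (M + 1) * (v + 1) ≤ n + 1 := by omega
    have h7 : ((4 * (M + 1) * (v + 1) : ℕ) : ℝ) ≤ ((n + 1 : ℕ) : ℝ) := by exact_mod_cast this
    push_cast at h7 ⊢
    linarith
  have m7 : 14 * e * (2 * (v + 1)) ≤ 1 := by
    calc 14 * e * (2 * (v + 1)) ≤ (2 + 2 * M) * w * (2 * (v + 1)) := by gcongr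
      _ = w * (4 * (M + 1) * (v + 1)) := by ring
      _ ≤ 1 := m6
  have m8 : 14 * e * (2 * ((v : ℝ) + 1)) = 28 / 16 := by
    have : 14 * e * (2 * ((v : ℝ) + 1)) = 28 * ((v + 1) * e) := by ring
    rw [this, hve]; norm_num
  rw [m8] at m7
  norm_num at m7

end BlockData

end Pool.Agent.H84R3
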