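import Pool.Agent.H84R3.Moves

set_option autoImplicit false

open MeasureTheory Filter Topology Set

namespace Pool.Agent.H84R3

/-- normalized Fejer-type kernel -/
noncomputable def Fj (M : ℕ) (x : ℝ) : ℝ := ‖∑ h ∈ Finset.range M, ex (h * x)‖ ^ 2 / M

lemma Fj_nonneg (M : ℕ) (x : ℝ) : 0 ≤ Fj M x := by unfold Fj; positivity

lemma Fj_large (M : ℕ) (hM : 1 ≤ M) (t : ℤ) (x : ℝ) (hx : |x - t| * (16 * M) ≤ 1) :
    (M : ℝ) / 4 ≤ Fj M x := by
  have hMr : (1 : ℝ) ≤ M := by exact_mod_cast hM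
  have h1 : ‖(M : ℂ) - ∑ h ∈ Finset.range M, ex (h * x)‖ ≤ M * (1 / 2) := by
    have h2 : (M : ℂ) = ∑ h ∈ Finset.range M, (1 : ℂ) := by simp
    rw [h2, ← Finset.sum_sub_distrib]
    calc ‖∑ h ∈ Finset.range M, (1 - ex (h * x))‖ ≤ ∑ h ∈ Finset.range M, ‖1 - ex (h * x)‖ :=
          norm_sum_le _ _
      _ ≤ ∑ h ∈ Finset.range M, (1 / 2 : ℝ) := by
          apply Finset.sum_le_sum
          intro h hh
          rw [Finset.mem_range] at hh
          have h3 : (1 : ℂ) = ex (h * t) := by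
            have := ex_int (h * t)
            rw [← this]; push_cast; rfl
          rw [h3]
          refine (norm_ex_sub_le _ _).trans ?_
          rw [← mul_sub, abs_mul, Nat.abs_cast, abs_sub_comm]
          have h4 : (h : ℝ) ≤ M := by exact_mod_cast hh.le
          calc 2 * Real.pi * (h * |x - t|) ≤ 2 * Real.pi * (M * |x - t|) := by gcongr
            _ = Real.pi / 8 * (|x - t| * (16 * M)) := by ring
            _ ≤ Real.pi / 8 * 1 := by gcongr
            _ ≤ 1 / 2 := by linarith [Real.pi_lt_four]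
      _ = M * (1 / 2) := by simp
  have h5 : (M : ℝ) / 2 ≤ ‖∑ h ∈ Finset.range M, ex (h * x)‖ := by
    have h6 : ‖(M : ℂ)‖ ≤ ‖(M : ℂ) - ∑ h ∈ Finset.range M, ex (h * x)‖ +
        ‖∑ h ∈ Finset.range M, ex (h * x)‖ := by
      have := norm_add_le ((M : ℂ) - ∑ h ∈ Finset.range M, ex (h * x)) (∑ h ∈ Finset.range M, ex (h * x))
      rwa [sub_add_cancel] at this
    rw [Complex.norm_natCast] at h6
    linarith
  unfold Fj
  rw [le_div_iff₀ (by positivity)]
  calc (M : ℝ) / 4 * M = (M / 2) ^ 2 := by ring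
    _ ≤ ‖∑ h ∈ Finset.range M, ex (h * x)‖ ^ 2 := by gcongr

lemma Fj_sum (M : ℕ) (hM : 1 ≤ M) (x : ℕ → ℝ) (U : Finset ℕ) (D : ℝ)
    (hD : ∀ k : ℕ, 1 ≤ k → k < M → ‖∑ n ∈ U, ex (k * x n)‖ ≤ D) (hD0 : 0 ≤ D) :
    |(∑ n ∈ U, Fj M (x n)) - U.card| ≤ M * D := by
  have hMr : (1 : ℝ) ≤ M := by exact_mod_cast hM
  have hexp : ∀ t : ℝ, ((‖∑ h ∈ Finset.range M, ex (h * t)‖ ^ 2 : ℝ) : ℂ) =
      ∑ h ∈ Finset.range M, ∑ h' ∈ Finset.range M, ex (((h : ℝ) - h') * t) := by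
    intro t
    rw [← Complex.normSq_eq_norm_sq, ← Complex.mul_conj, map_sum, Finset.sum_mul_sum]
    apply Finset.sum_congr rfl
    intro n _
    apply Finset.sum_congr rfl
    intro m _
    rw [conj_ex, ← ex_add]
    congr 1
    ring
  have h1 : (((M : ℝ) * ((∑ n ∈ U, Fj M (x n)) - U.card) : ℝ) : ℂ) =
      ∑ h ∈ Finset.range M, ∑ h' ∈ Finset.range M,
        ((∑ n ∈ U, ex (((h : ℝ) - h') * x n)) - (if h = h' then (U.card : ℂ) else 0)) := by
    have h2 : (M : ℝ) * ((∑ n ∈ U, Fj M (x n)) - U.card) =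
        (∑ n ∈ U, ‖∑ h ∈ Finset.range M, ex (h * x n)‖ ^ 2) - M * U.card := by
      unfold Fj
      rw [mul_sub, Finset.mul_sum]
      congr 1
      apply Finset.sum_congr rfl
      intro n _
      have hM0 : (M : ℝ) ≠ 0 := by positivity
      rw [mul_comm, div_mul_cancel₀ _ hM0]
    rw [h2]
    push_cast
    have h3 : ∀ n ∈ U, ((‖∑ h ∈ Finset.range M, ex (h * x n)‖ : ℂ)) ^ 2 =
      ∑ h ∈ Finset.range M, ∑ h' ∈ Finset.range M, ex (((h : ℝ) - h') * x n) := by
      intro n _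
      rw [← hexp]; push_cast; rfl
    rw [Finset.sum_congr rfl h3, Finset.sum_comm]
    simp_rw [Finset.sum_sub_distrib]
    congr 1
    · apply Finset.sum_congr rfl
      intro h _
      rw [Finset.sum_comm]
    · have hs : ∀ h ∈ Finset.range M, (∑ h' ∈ Finset.range M, (if h = h' then (U.card : ℂ) else 0)) =
          U.card := by
        intro h hh
        rw [Finset.sum_ite_eq]
        exact if_pos hh
      rw [Finset.sum_congr rfl hs, Finset.sum_const, Finset.card_range, nsmul_eq_mul]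
  have h4 : ∀ h ∈ Finset.range M, ∀ h' ∈ Finset.range M,
      ‖(∑ n ∈ U, ex (((h : ℝ) - h') * x n)) - (if h = h' then (U.card : ℂ) else 0)‖ ≤ D := by
    intro h hh h' hh'
    rw [Finset.mem_range] at hh hh'
    rcases lt_trichotomy h h' with hlt | heq | hgt
    · rw [if_neg hlt.ne, sub_zero]
      obtain ⟨k, rfl⟩ := Nat.exists_eq_add_of_lt hlt
      have h5 := hD (k + 1) (by omega) (by omega)
      have h6 : (∑ n ∈ U, ex (((h : ℝ) - ((h + k + 1 : ℕ) : ℝ)) * x n)) =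
          (starRingEnd ℂ) (∑ n ∈ U, ex (((k + 1 : ℕ) : ℝ) * x n)) := by
        rw [map_sum]
        apply Finset.sum_congr rfl
        intro n _
        rw [conj_ex]
        congr 1
        push_cast
        ring
      rw [h6, Complex.norm_conj]
      exact h5
    · subst heq
      rw [if_pos rfl]
      simp only [sub_self, zero_mul, ex_zero]
      simp [hD0]
    · rw [if_neg hgt.ne', sub_zero]
      obtain ⟨k, rfl⟩ := Nat.exists_eq_add_of_lt hgt
      have h5 := hD (k + 1) (by omega) (by omega)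
      have h6 : (∑ n ∈ U, ex ((((h' + k + 1 : ℕ) : ℝ) - (h' : ℝ)) * x n)) =
          (∑ n ∈ U, ex (((k + 1 : ℕ) : ℝ) * x n)) := by
        apply Finset.sum_congr rfl
        intro n _
        congr 1
        push_cast
        ring
      rw [h6]
      exact h5
  have h7 : |(M : ℝ) * ((∑ n ∈ U, Fj M (x n)) - U.card)| ≤ M * (M * D) := by
    rw [← Real.norm_eq_abs, ← Complex.norm_real, h1]
    calc _ ≤ ∑ h ∈ Finset.range M, ∑ h' ∈ Finset.range M, D := by
          refine (norm_sum_le _ _).trans ?_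
          apply Finset.sum_le_sum
          intro h hh
          refine (norm_sum_le _ _).trans ?_
          apply Finset.sum_le_sum
          intro h' hh'
          exact h4 h hh h' hh'
      _ = M * (M * D) := by simp
  rw [abs_mul, Nat.abs_cast] at h7
  exact le_of_mul_le_mul_left h7 (by positivity)

section

variable (α : ℝ) (hα : 1 < |α|)

include hα

lemma biased_move : ∃ s M : ℕ, 1 ≤ s ∧ 1 ≤ M ∧ 2 ≤ |α| ^ s ∧
    ∀ a : ℝ, ∃ t ∈ Icc a (a+1), ∀ t', |t' - t| * |α| ^ s ≤ 1 → 2 * (s : ℝ) ≤ Fj M t' := by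
  have h1 : Tendsto (fun n : ℕ => (n : ℝ) * |α|⁻¹ ^ n) atTop (𝓝 0) :=
    tendsto_self_mul_const_pow_of_lt_one (by positivity) (inv_lt_one_of_one_lt₀ hα)
  have h2 : ∀ᶠ n : ℕ in atTop, (n : ℝ) * |α|⁻¹ ^ n < 1 / 128 := h1.eventually_lt_const (by norm_num)
  obtain ⟨s, hs1, hs2⟩ := (h2.and (eventually_ge_atTop 1)).exists
  have hβ0 : 0 < |α| := by linarith
  have hsr : (1 : ℝ) ≤ s := by exact_mod_cast hs2
  have h3 : 128 * (s : ℝ) ≤ |α| ^ s := by
    rw [inv_pow, ← div_eq_mul_inv, div_lt_div_iff₀ (by positivity) (by norm_num)] at hs1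
    linarith
  refine ⟨s, 8 * s, hs2, by omega, by linarith, fun a => ?_⟩
  refine ⟨(⌈a⌉ : ℝ), ⟨Int.le_ceil a, (Int.ceil_lt_add_one a).le⟩, fun t' ht' => ?_⟩
  have h4 := Fj_large (8 * s) (by omega) ⌈a⌉ t' (by
    push_cast
    calc |t' - ⌈a⌉| * (16 * (8 * s)) = |t' - ⌈a⌉| * (128 * s) := by ring
      _ ≤ |t' - ⌈a⌉| * |α| ^ s := by gcongr
      _ ≤ 1 := ht')
  push_cast at h4
  linarith

lemma iterate_moves (P : ℝ → Prop) (l : ℕ) (hl : 2 ≤ |α| ^ l)
    (hP : ∀ a : ℝ, ∃ t ∈ Icc a (a+1), ∀ t', |t' - t| * |α| ^ l ≤ 1 → P t') (u N : ℕ) (c : ℝ) :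
    ∃ c' : ℝ, ∀ ξ : ℝ, |ξ - c'| * |α| ^ (N + u * l) ≤ 1 →
      |ξ - c| * |α| ^ N ≤ 1 ∧ ∀ i < u, P (ξ * α ^ (N + i * l)) := by
  have hβ0 : 0 < |α| := by linarith
  induction u with
  | zero =>
    refine ⟨c, fun ξ hξ => ⟨by simpa using hξ, fun i hi => by omega⟩⟩
  | succ u ih =>
    obtain ⟨c1, hc1⟩ := ih
    obtain ⟨t, ht, htP⟩ := hP (c1 * α ^ (N + u * l) - 1 / 2)
    refine ⟨t / α ^ (N + u * l), fun ξ hξ => ?_⟩
    have hpow : α ^ (N + u * l) ≠ 0 := by
      apply pow_ne_zero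
      intro h
      rw [h, abs_zero] at hα
      linarith
    have e1 : |ξ * α ^ (N + u * l) - t| = |ξ - t / α ^ (N + u * l)| * |α| ^ (N + u * l) := by
      rw [← abs_pow, ← abs_mul]
      congr 1
      field_simp
    have e2 : |ξ * α ^ (N + u * l) - t| * |α| ^ l ≤ 1 := by
      rw [e1, mul_assoc, ← pow_add]
      have : N + u * l + l = N + (u + 1) * l := by ring
      rw [this]
      exact hξ
    have e3 : |ξ * α ^ (N + u * l) - t| ≤ 1 / 2 := by
      by_contra hcon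
      push Not at hcon
      nlinarith
    have e4 : |ξ - c1| * |α| ^ (N + u * l) ≤ 1 := by
      rw [← abs_pow, ← abs_mul, sub_mul]
      rw [abs_le] at e3 ⊢
      obtain ⟨h5, h6⟩ := ht
      constructor <;> linarith [e3.1, e3.2]
    obtain ⟨g1, g2⟩ := hc1 ξ e4
    refine ⟨g1, fun i hi => ?_⟩
    rcases Nat.lt_succ_iff_lt_or_eq.1 hi with h | h
    · exact g2 i h
    · rw [h]
      exact htP _ e2

end

lemma Ico_sum_norm_le (x : ℕ → ℝ) (k a b : ℕ) (hab : a ≤ b) :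
    ‖∑ i ∈ Finset.Ico a b, ex (k * x i)‖ ≤ (b : ℝ) - a := by
  calc ‖∑ i ∈ Finset.Ico a b, ex (k * x i)‖ ≤ ∑ i ∈ Finset.Ico a b, ‖ex (k * x i)‖ := norm_sum_le _ _
    _ = (b : ℝ) - a := by simp [norm_ex, Nat.cast_sub hab]

lemma uniform_block_sum (α ξ : ℝ) (l j u N k : ℕ) (hl : 1 ≤ l) (hj : 1 ≤ j)
    (h : ∀ i < u, ‖∑ n ∈ Finset.range l, ex (k * (ξ * α ^ (N + i * l) * α ^ n))‖ ≤ (l : ℝ) / j)
    (m : ℕ) (hm : m ≤ u * l) :
    ‖∑ i ∈ Finset.Ico N (N + m), ex (k * (ξ * α ^ i))‖ ≤ (m : ℝ) / j + l := by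
  have hjr : (1 : ℝ) ≤ j := by exact_mod_cast hj
  have h1 : ∀ q ≤ u, ‖∑ i ∈ Finset.Ico N (N + q * l), ex (k * (ξ * α ^ i))‖ ≤ ((q * l : ℕ) : ℝ) / j := by
    intro q
    induction q with
    | zero => intro _; simp
    | succ q ih =>
      intro hq
      have h2 := ih (by omega)
      have h3 : N + (q + 1) * l = (N + q * l) + l := by ring
      rw [h3, ← Finset.sum_Ico_consecutive _ (by omega : N ≤ N + q * l) (by omega : N + q * l ≤ N + q * l + l)]
      have h4 : ∑ i ∈ Finset.Ico (N + q * l) (N + q * l + l), ex (k * (ξ * α ^ i)) =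
          ∑ n ∈ Finset.range l, ex (k * (ξ * α ^ (N + q * l) * α ^ n)) := by
        rw [Finset.sum_Ico_eq_sum_range]
        have : N + q * l + l - (N + q * l) = l := by omega
        rw [this]
        apply Finset.sum_congr rfl
        intro n _
        rw [pow_add, mul_assoc]
      rw [h4]
      refine (norm_add_le _ _).trans ?_
      have h5 := h q (by omega)
      calc _ ≤ ((q * l : ℕ) : ℝ) / j + (l : ℝ) / j := by linarith
        _ = (((q + 1) * l : ℕ) : ℝ) / j := by push_cast; ring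
  have hq : m / l ≤ u := by
    rw [Nat.div_le_iff_le_mul_add_pred (by omega)]
    have : l * u = u * l := mul_comm _ _
    omega
  have h6 := h1 (m / l) hq
  have h7 : m / l * l ≤ m := Nat.div_mul_le_self m l
  have h8 : m - m / l * l ≤ l := by
    have h9 := Nat.mod_lt m (by omega : 0 < l)
    have h10 := Nat.div_add_mod m l
    have h11 : l * (m / l) = m / l * l := mul_comm _ _
    omega
  rw [← Finset.sum_Ico_consecutive _ (by omega : N ≤ N + m / l * l) (by omega : N + m / l * l ≤ N + m)]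
  refine (norm_add_le _ _).trans ?_
  have h12 := Ico_sum_norm_le (fun i => ξ * α ^ i) k (N + m / l * l) (N + m) (by omega)
  have h13 : ((N + m : ℕ) : ℝ) - ((N + m / l * l : ℕ) : ℝ) ≤ l := by
    have : ((m - m / l * l : ℕ) : ℝ) ≤ l := by exact_mod_cast h8
    rw [Nat.cast_sub h7] at this
    push_cast at this ⊢
    linarith
  have h14 : ((m / l * l : ℕ) : ℝ) / j ≤ (m : ℝ) / j := by
    apply div_le_div_of_nonneg_right _ (by positivity)
    exact_mod_cast h7
  linarith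

lemma biased_block_sum (α ξ : ℝ) (s M b N : ℕ) (hs : 1 ≤ s)
    (h : ∀ i < b, 2 * (s : ℝ) ≤ Fj M (ξ * α ^ (N + i * s))) :
    2 * ((b * s : ℕ) : ℝ) ≤ ∑ i ∈ Finset.Ico N (N + b * s), Fj M (ξ * α ^ i) := by
  induction b with
  | zero => simp
  | succ b ih =>
    have h1 := ih (fun i hi => h i (by omega))
    have h3 : N + (b + 1) * s = (N + b * s) + s := by ring
    rw [h3, ← Finset.sum_Ico_consecutive _ (by omega : N ≤ N + b * s) (by omega : N + b * s ≤ N + b * s + s)]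
    have h4 : Fj M (ξ * α ^ (N + b * s)) ≤ ∑ i ∈ Finset.Ico (N + b * s) (N + b * s + s), Fj M (ξ * α ^ i) :=
      Finset.single_le_sum (f := fun i => Fj M (ξ * α ^ i)) (fun _ _ => Fj_nonneg _ _)
        (Finset.mem_Ico.2 ⟨le_rfl, by omega⟩)
    have h5 := h b (by omega)
    have h6 : 2 * (((b + 1) * s : ℕ) : ℝ) = 2 * ((b * s : ℕ) : ℝ) + 2 * s := by push_cast; ring
    linarith

end Pool.Agent.H84R3
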