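import Pool.Agent.H84R3.WeylCrit

set_option autoImplicit false

open MeasureTheory Filter Topology Set

namespace Pool.Agent.H84R3

lemma continuous_ex : Continuous ex := by
  unfold ex
  fun_prop

lemma conj_ex (x : ℝ) : (starRingEnd ℂ) (ex x) = ex (-x) := by
  unfold ex
  rw [← Complex.exp_conj]
  congr 1
  rw [map_mul, Complex.conj_I, Complex.conj_ofReal]
  push_cast
  ring

lemma norm_integral_ex_le (a l : ℝ) (hl : l ≠ 0) :
    ‖∫ t in a..(a+1), ex (l * t)‖ ≤ 1 / (Real.pi * |l|) := by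
  have hc : (Complex.I * (2 * Real.pi * l : ℝ)) ≠ 0 := by
    apply mul_ne_zero Complex.I_ne_zero
    have : (2 * Real.pi * l : ℝ) ≠ 0 := by positivity
    exact_mod_cast this
  have h1 : (∫ t in a..(a+1), ex (l * t)) =
      ∫ t in a..(a+1), Complex.exp ((Complex.I * (2 * Real.pi * l : ℝ)) * t) := by
    congr 1
    ext t
    unfold ex
    congr 1
    push_cast
    ring
  rw [h1, integral_exp_mul_complex hc, norm_div]
  have h2 : ‖(Complex.I * (2 * Real.pi * l : ℝ))‖ = 2 * Real.pi * |l| := by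
    rw [norm_mul, Complex.norm_I, one_mul, Complex.norm_real, Real.norm_eq_abs, abs_mul,
      abs_of_pos (by positivity : (0:ℝ) < 2 * Real.pi)]
  rw [h2]
  have h3 : ∀ u : ℝ, ‖Complex.exp ((Complex.I * (2 * Real.pi * l : ℝ)) * u)‖ = 1 := by
    intro u
    have : (Complex.I * (2 * Real.pi * l : ℝ)) * u = ((2 * Real.pi * l * u : ℝ) : ℂ) * Complex.I := by
      push_cast; ring
    rw [this]
    exact Complex.norm_exp_ofReal_mul_I _
  have h4 : ‖Complex.exp ((Complex.I * (2 * Real.pi * l : ℝ)) * (a + 1 : ℝ)) -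
      Complex.exp ((Complex.I * (2 * Real.pi * l : ℝ)) * (a : ℝ))‖ ≤ 2 := by
    refine (norm_sub_le _ _).trans ?_
    rw [h3, h3]; norm_num
  have hlpos : 0 < |l| := abs_pos.2 hl
  rw [div_le_div_iff₀ (by positivity) (by positivity)]
  push_cast at h4 ⊢
  nlinarith [Real.pi_pos, mul_pos Real.pi_pos hlpos]

section

variable (α : ℝ) (hα : 1 < |α|)

include hα

lemma pow_gap (n m : ℕ) (hnm : n ≠ m) :
    (|α| - 1) / |α| * ((Real.sqrt |α|) ^ n * (Real.sqrt |α|) ^ m) ≤ |α ^ n - α ^ m| := by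
  set β := |α| with hβ
  set δ := Real.sqrt β with hδ
  have hβ0 : 0 < β := by linarith
  have hδ2 : δ ^ 2 = β := Real.sq_sqrt hβ0.le
  have hδ1 : 1 < δ := by
    rw [hδ]
    exact Real.lt_sqrt_of_sq_lt (by simpa using hα)
  have main : ∀ n m : ℕ, m < n → (β - 1) / β * (δ ^ n * δ ^ m) ≤ |α ^ n - α ^ m| := by
    intro n m h
    have h1 : |α ^ n| - |α ^ m| ≤ |α ^ n - α ^ m| := abs_sub_abs_le_abs_sub _ _
    rw [abs_pow, abs_pow, ← hβ] at h1
    refine le_trans ?_ h1
    obtain ⟨k, rfl⟩ : ∃ k, n = k + 1 := ⟨n - 1, by omega⟩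
    have h2 : β ^ m ≤ β ^ k := pow_le_pow_right₀ hα.le (by omega)
    have h3 : δ ^ (k+1) * δ ^ m ≤ β ^ (k+1) := by
      rw [← hδ2, ← pow_add, ← pow_mul]
      exact pow_le_pow_right₀ hδ1.le (by omega)
    have h4 : (β - 1) / β * (δ ^ (k+1) * δ ^ m) ≤ (β - 1) / β * β ^ (k+1) := by
      apply mul_le_mul_of_nonneg_left h3
      apply div_nonneg _ hβ0.le
      linarith
    have h5 : (β - 1) / β * β ^ (k+1) = β ^ (k+1) - β ^ k := by
      rw [pow_succ]
      field_simp
    linarith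
  rcases lt_or_gt_of_ne hnm with h | h
  · rw [abs_sub_comm, mul_comm (δ ^ n)]
    exact main m n h
  · exact main n m h

/-- second moment constant -/
noncomputable def C2 (α : ℝ) : ℝ :=
  (|α| / (|α| - 1)) / Real.pi * (1 / (1 - (Real.sqrt |α|)⁻¹)) ^ 2

lemma C2_nonneg : 0 ≤ C2 α := by
  unfold C2
  have : 0 < |α| - 1 := by linarith
  positivity

lemma second_moment (a : ℝ) (k : ℕ) (hk : 1 ≤ k) (L : ℕ) :
    ∫ t in a..(a+1), ‖∑ n ∈ Finset.range L, ex (k * (t * α ^ n))‖ ^ 2 ≤ L + C2 α := by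
  set β := |α| with hβ
  set δ := Real.sqrt β with hδ
  have hβ0 : 0 < β := by linarith
  have hδ1 : 1 < δ := by
    rw [hδ]
    exact Real.lt_sqrt_of_sq_lt (by simpa using hα)
  have hk' : (1 : ℝ) ≤ k := by exact_mod_cast hk
  -- expansion
  have hexp : ∀ t : ℝ, ((‖∑ n ∈ Finset.range L, ex (k * (t * α ^ n))‖ ^ 2 : ℝ) : ℂ) =
      ∑ n ∈ Finset.range L, ∑ m ∈ Finset.range L, ex ((k * (α ^ n - α ^ m)) * t) := by
    intro t
    rw [← Complex.normSq_eq_norm_sq, ← Complex.mul_conj, map_sum, Finset.sum_mul_sum]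
    apply Finset.sum_congr rfl
    intro n _
    apply Finset.sum_congr rfl
    intro m _
    rw [conj_ex, ← ex_add]
    congr 1
    ring
  have hint : ((∫ t in a..(a+1), ‖∑ n ∈ Finset.range L, ex (k * (t * α ^ n))‖ ^ 2 : ℝ) : ℂ) =
      ∑ n ∈ Finset.range L, ∑ m ∈ Finset.range L, ∫ t in a..(a+1), ex ((k * (α ^ n - α ^ m)) * t) := by
    rw [← intervalIntegral.integral_ofReal]
    simp_rw [hexp]
    rw [intervalIntegral.integral_finsetSum]
    · apply Finset.sum_congr rfl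
      intro n _
      rw [intervalIntegral.integral_finsetSum]
      intro m _
      apply Continuous.intervalIntegrable
      exact continuous_ex.comp (by fun_prop)
    · intro n _
      apply Continuous.intervalIntegrable
      apply continuous_finsetSum
      intro m _
      exact continuous_ex.comp (by fun_prop)
  have hnn : 0 ≤ ∫ t in a..(a+1), ‖∑ n ∈ Finset.range L, ex (k * (t * α ^ n))‖ ^ 2 := by
    apply intervalIntegral.integral_nonneg (by linarith)
    intro t _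
    positivity
  have h1 : (∫ t in a..(a+1), ‖∑ n ∈ Finset.range L, ex (k * (t * α ^ n))‖ ^ 2 : ℝ) =
      ‖((∫ t in a..(a+1), ‖∑ n ∈ Finset.range L, ex (k * (t * α ^ n))‖ ^ 2 : ℝ) : ℂ)‖ := by
    rw [Complex.norm_real, Real.norm_eq_abs, abs_of_nonneg hnn]
  rw [h1, hint]
  -- bounds for the individual integrals
  set K := (β / (β - 1)) / Real.pi with hK
  have hKpos : 0 < K := by
    have : 0 < β - 1 := by linarith
    rw [hK]; positivity
  have hb : ∀ n m : ℕ, ‖∫ t in a..(a+1), ex ((k * (α ^ n - α ^ m)) * t)‖ ≤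
      (if n = m then 1 else 0) + K * (δ⁻¹ ^ n * δ⁻¹ ^ m) := by
    intro n m
    by_cases hnm : n = m
    · subst hnm
      simp only [sub_self, mul_zero, zero_mul, ex_zero, if_true]
      have h2 : ‖∫ t in a..(a+1), (1 : ℂ)‖ ≤ 1 := by
        simp
      refine h2.trans ?_
      have : 0 ≤ K * (δ⁻¹ ^ n * δ⁻¹ ^ n) := by positivity
      linarith
    · rw [if_neg hnm, zero_add]
      have hgap := pow_gap α hα n m hnm
      rw [← hβ, ← hδ] at hgap
      have hpos : 0 < (β - 1) / β * (δ ^ n * δ ^ m) := by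
        have : 0 < β - 1 := by linarith
        positivity
      have hne : α ^ n - α ^ m ≠ 0 := by
        intro h
        rw [h, abs_zero] at hgap
        linarith
      have hne' : (k : ℝ) * (α ^ n - α ^ m) ≠ 0 := mul_ne_zero (by positivity) hne
      refine (norm_integral_ex_le a _ hne').trans ?_
      have h3 : (β - 1) / β * (δ ^ n * δ ^ m) ≤ |(k : ℝ) * (α ^ n - α ^ m)| := by
        rw [abs_mul, Nat.abs_cast]
        calc (β - 1) / β * (δ ^ n * δ ^ m) ≤ |α ^ n - α ^ m| := hgap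
          _ = 1 * |α ^ n - α ^ m| := by ring
          _ ≤ k * |α ^ n - α ^ m| := by gcongr
      calc 1 / (Real.pi * |(k : ℝ) * (α ^ n - α ^ m)|)
          ≤ 1 / (Real.pi * ((β - 1) / β * (δ ^ n * δ ^ m))) := by
            gcongr
        _ = K * (δ⁻¹ ^ n * δ⁻¹ ^ m) := by
            have h4 : β - 1 ≠ 0 := by linarith
            have h5 : δ ≠ 0 := by positivity
            rw [hK, inv_pow, inv_pow]
            field_simp
  calc ‖∑ n ∈ Finset.range L, ∑ m ∈ Finset.range L, ∫ t in a..(a+1), ex ((k * (α ^ n - α ^ m)) * t)‖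
      ≤ ∑ n ∈ Finset.range L, ∑ m ∈ Finset.range L, ‖∫ t in a..(a+1), ex ((k * (α ^ n - α ^ m)) * t)‖ := by
        refine (norm_sum_le _ _).trans ?_
        apply Finset.sum_le_sum
        intro n _
        exact norm_sum_le _ _
    _ ≤ ∑ n ∈ Finset.range L, ∑ m ∈ Finset.range L,
        ((if n = m then 1 else 0) + K * (δ⁻¹ ^ n * δ⁻¹ ^ m)) := by
        apply Finset.sum_le_sum
        intro n _
        apply Finset.sum_le_sum
        intro m _
        exact hb n m
    _ = L + K * (∑ n ∈ Finset.range L, δ⁻¹ ^ n) ^ 2 := by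
        simp_rw [Finset.sum_add_distrib]
        congr 1
        · have hs : ∀ n ∈ Finset.range L, (∑ m ∈ Finset.range L, (if n = m then (1:ℝ) else 0)) = 1 := by
            intro n hn
            rw [Finset.sum_ite_eq]
            exact if_pos hn
          rw [Finset.sum_congr rfl hs, Finset.sum_const, Finset.card_range, nsmul_eq_mul, mul_one]
        · rw [sq, Finset.sum_mul_sum, Finset.mul_sum]
          apply Finset.sum_congr rfl
          intro n _
          rw [Finset.mul_sum]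
    _ ≤ L + C2 α := by
        unfold C2
        rw [← hβ, ← hδ, ← hK]
        have h6 : δ⁻¹ < 1 := inv_lt_one_of_one_lt₀ hδ1
        have h7 : 0 < δ⁻¹ := by positivity
        have h8 : ∑ n ∈ Finset.range L, δ⁻¹ ^ n ≤ 1 / (1 - δ⁻¹) := by
          rw [geom_sum_eq h6.ne, ← neg_div_neg_eq, neg_sub, neg_sub]
          apply div_le_div_of_nonneg_right _ (by linarith)
          have : 0 ≤ δ⁻¹ ^ L := by positivity
          linarith
        have h9 : 0 ≤ ∑ n ∈ Finset.range L, δ⁻¹ ^ n :=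
          Finset.sum_nonneg (fun n _ => (pow_pos h7 n).le)
        exact add_le_add le_rfl (mul_le_mul_of_nonneg_left (pow_le_pow_left₀ h9 h8 2) hKpos.le)

lemma exists_good_t (a : ℝ) (H L : ℕ) :
    ∃ t ∈ Icc a (a+1), ∀ k : ℕ, 1 ≤ k → k ≤ H →
      ‖∑ n ∈ Finset.range L, ex (k * (t * α ^ n))‖ ^ 2 ≤ H * (L + C2 α) := by
  by_contra hcon
  push Not at hcon
  let f : ℝ → ℝ := fun t => ∑ k ∈ Finset.Icc 1 H, ‖∑ n ∈ Finset.range L, ex (k * (t * α ^ n))‖ ^ 2
  have hfc : Continuous f := by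
    apply continuous_finsetSum
    intro k _
    apply Continuous.pow
    apply Continuous.norm
    apply continuous_finsetSum
    intro n _
    exact continuous_ex.comp (by fun_prop)
  have h1 : ∀ t ∈ Icc a (a+1), (H : ℝ) * (L + C2 α) < f t := by
    intro t ht
    obtain ⟨k, hk1, hk2, hk3⟩ := hcon t ht
    refine lt_of_lt_of_le hk3 ?_
    exact Finset.single_le_sum
      (f := fun k : ℕ => ‖∑ n ∈ Finset.range L, ex (k * (t * α ^ n))‖ ^ 2)
      (fun _ _ => by positivity) (Finset.mem_Icc.2 ⟨hk1, hk2⟩)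
  have h2 : ∫ t in a..(a+1), f t ≤ H * (L + C2 α) := by
    have : ∫ t in a..(a+1), f t = ∑ k ∈ Finset.Icc 1 H, ∫ t in a..(a+1),
        ‖∑ n ∈ Finset.range L, ex (k * (t * α ^ n))‖ ^ 2 := by
      apply intervalIntegral.integral_finsetSum
      intro k _
      apply Continuous.intervalIntegrable
      apply Continuous.pow
      apply Continuous.norm
      apply continuous_finsetSum
      intro n _
      exact continuous_ex.comp (by fun_prop)
    rw [this]
    calc ∑ k ∈ Finset.Icc 1 H, ∫ t in a..(a+1), ‖∑ n ∈ Finset.range L, ex (k * (t * α ^ n))‖ ^ 2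
        ≤ ∑ k ∈ Finset.Icc 1 H, (L + C2 α) := by
          apply Finset.sum_le_sum
          intro k hk
          exact second_moment α hα a k (Finset.mem_Icc.1 hk).1 L
      _ = H * (L + C2 α) := by simp; ring
  have h3 : ∫ t in a..(a+1), ((H : ℝ) * (L + C2 α)) < ∫ t in a..(a+1), f t := by
    apply intervalIntegral.integral_lt_integral_of_continuousOn_of_le_of_exists_lt (by linarith)
      continuousOn_const hfc.continuousOn
    · intro t ht
      exact (h1 t ⟨ht.1.le, ht.2⟩).le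
    · exact ⟨a, ⟨le_rfl, by linarith⟩, h1 a ⟨le_rfl, by linarith⟩⟩
  simp at h3
  linarith

/-- perturbation -/
lemma perturb (k L : ℕ) (t t' : ℝ) (h : |t' - t| * |α| ^ L ≤ 1) :
    ‖∑ n ∈ Finset.range L, ex (k * (t' * α ^ n))‖ ≤
      ‖∑ n ∈ Finset.range L, ex (k * (t * α ^ n))‖ + 2 * Real.pi * k / (|α| - 1) := by
  have hβ1 : 0 < |α| - 1 := by linarith
  have h1 : ‖∑ n ∈ Finset.range L, ex (k * (t' * α ^ n)) - ∑ n ∈ Finset.range L, ex (k * (t * α ^ n))‖
      ≤ 2 * Real.pi * k / (|α| - 1) := by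
    rw [← Finset.sum_sub_distrib]
    calc ‖∑ n ∈ Finset.range L, (ex (k * (t' * α ^ n)) - ex (k * (t * α ^ n)))‖
        ≤ ∑ n ∈ Finset.range L, ‖ex (k * (t' * α ^ n)) - ex (k * (t * α ^ n))‖ := norm_sum_le _ _
      _ ≤ ∑ n ∈ Finset.range L, 2 * Real.pi * k * |t' - t| * |α| ^ n := by
          apply Finset.sum_le_sum
          intro n _
          refine (norm_ex_sub_le _ _).trans (le_of_eq ?_)
          rw [← mul_sub, ← sub_mul, abs_mul, abs_mul, Nat.abs_cast, abs_pow]
          ring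
      _ = 2 * Real.pi * k * |t' - t| * ∑ n ∈ Finset.range L, |α| ^ n := by
          rw [Finset.mul_sum]
      _ ≤ 2 * Real.pi * k * |t' - t| * (|α| ^ L / (|α| - 1)) := by
          apply mul_le_mul_of_nonneg_left _ (by positivity)
          rw [geom_sum_eq (by linarith)]
          apply div_le_div_of_nonneg_right _ hβ1.le
          linarith
      _ = 2 * Real.pi * k * (|t' - t| * |α| ^ L) / (|α| - 1) := by ring
      _ ≤ 2 * Real.pi * k * 1 / (|α| - 1) := by gcongr
      _ = 2 * Real.pi * k / (|α| - 1) := by ring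
  calc ‖∑ n ∈ Finset.range L, ex (k * (t' * α ^ n))‖
      = ‖(∑ n ∈ Finset.range L, ex (k * (t' * α ^ n)) - ∑ n ∈ Finset.range L, ex (k * (t * α ^ n))) +
        ∑ n ∈ Finset.range L, ex (k * (t * α ^ n))‖ := by rw [sub_add_cancel]
    _ ≤ _ := by
      refine (norm_add_le _ _).trans ?_
      linarith

/-- The uniform move -/
lemma uniform_move (j : ℕ) (hj : 1 ≤ j) : ∃ l : ℕ, 1 ≤ l ∧ 2 ≤ |α| ^ l ∧
    ∀ a : ℝ, ∃ t ∈ Icc a (a+1), ∀ t', |t' - t| * |α| ^ l ≤ 1 →
      ∀ k : ℕ, 1 ≤ k → k ≤ j → ‖∑ n ∈ Finset.range l, ex (k * (t' * α ^ n))‖ ≤ (l : ℝ) / j := by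
  have hβ1 : 0 < |α| - 1 := by linarith
  have hj' : (1 : ℝ) ≤ j := by exact_mod_cast hj
  have hC := C2_nonneg α hα
  -- choose l
  have h1 : Tendsto (fun l : ℕ => |α| ^ l) atTop atTop := tendsto_pow_atTop_atTop_of_one_lt hα
  have h2 : ∀ᶠ l : ℕ in atTop, 2 ≤ |α| ^ l := h1.eventually_ge_atTop 2
  set P : ℝ := 2 * Real.pi * j / (|α| - 1) with hP
  have hPnn : 0 ≤ P := by positivity
  have h3 : ∀ᶠ l : ℕ in atTop, max (max (4 * j ^ 3 * (1 + C2 α)) (2 * j * P)) 1 ≤ (l : ℝ) :=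
    tendsto_natCast_atTop_atTop.eventually_ge_atTop _
  obtain ⟨l, hl1, hl2, hl3⟩ := (h2.and (h3.and (eventually_ge_atTop 1))).exists
  refine ⟨l, hl3, hl1, fun a => ?_⟩
  obtain ⟨t, ht, htk⟩ := exists_good_t α hα a j l
  refine ⟨t, ht, fun t' ht' k hk1 hk2 => ?_⟩
  have hlr : (1 : ℝ) ≤ l := (le_max_right _ _).trans hl2
  have hlA : 4 * j ^ 3 * (1 + C2 α) ≤ (l : ℝ) :=
    (le_max_left _ _).trans ((le_max_left _ _).trans hl2)
  have hlB : 2 * j * P ≤ (l : ℝ) :=
    (le_max_right _ _).trans ((le_max_left _ _).trans hl2)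
  have h4 : ‖∑ n ∈ Finset.range l, ex (k * (t * α ^ n))‖ ≤ (l : ℝ) / (2 * j) := by
    apply (sq_le_sq₀ (norm_nonneg _) (by positivity)).1
    refine (htk k hk1 hk2).trans ?_
    have h5 : (l : ℝ) + C2 α ≤ l * (1 + C2 α) := by nlinarith
    calc (j : ℝ) * (l + C2 α) ≤ j * (l * (1 + C2 α)) := by gcongr
      _ = (4 * j ^ 3 * (1 + C2 α)) * l / (4 * j ^ 2) := by field_simp
      _ ≤ l * l / (4 * j ^ 2) := by gcongr
      _ = ((l : ℝ) / (2 * j)) ^ 2 := by field_simp; ring
  have h6 := perturb α hα k l t t' ht'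
  have h7 : 2 * Real.pi * k / (|α| - 1) ≤ P := by
    rw [hP]
    have : (k : ℝ) ≤ j := by exact_mod_cast hk2
    gcongr
  have h8 : P ≤ (l : ℝ) / (2 * j) := by
    rw [le_div_iff₀ (by positivity)]
    linarith
  calc ‖∑ n ∈ Finset.range l, ex (k * (t' * α ^ n))‖ ≤ (l : ℝ) / (2 * j) + (l : ℝ) / (2 * j) := by linarith
    _ = (l : ℝ) / j := by field_simp; ring

end

end Pool.Agent.H84R3
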