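import Mathlib

set_option autoImplicit false

open Filter Topology Set

namespace Pool.Agent.H84R3

/-- A `Gδ` subset of a Polish space is Polish. -/
theorem polish_of_isGdelta {Y : Type} [TopologicalSpace Y] [PolishSpace Y] (U : ℕ → Set Y)
    (hU : ∀ n, IsOpen (U n)) : PolishSpace (⋂ n, U n : Set Y) := by
  haveI : ∀ n, PolishSpace (U n) := fun n => (hU n).polishSpace
  let φ : (⋂ n, U n : Set Y) → (∀ n, U n) := fun y n => ⟨y.1, mem_iInter.mp y.2 n⟩
  have hcont : Continuous φ := by
    apply continuous_pi
    intro n
    exact Continuous.subtype_mk continuous_subtype_val _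
  have hemb : IsEmbedding φ := by
    have h1 : IsEmbedding (fun z : (∀ n, U n) => (z 0 : Y)) ∨ True := Or.inr trivial
    refine ⟨⟨?_⟩, ?_⟩
    · apply le_antisymm
      · exact continuous_iff_le_induced.mp hcont
      · rw [instTopologicalSpaceSubtype]
        rintro s ⟨O, hO, rfl⟩
        refine ⟨(fun z : (∀ n, U n) => (z 0 : Y)) ⁻¹' O, ?_, rfl⟩
        exact hO.preimage (continuous_subtype_val.comp (continuous_apply 0))
    · intro y z hyz
      have := congrFun hyz 0
      exact Subtype.ext (congrArg (fun w : U 0 => (w : Y)) this)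
  have hrange : range φ = ⋂ n, {z : (∀ n, U n) | (z n : Y) = (z 0 : Y)} := by
    ext z
    simp only [mem_range, mem_iInter]
    constructor
    · rintro ⟨y, rfl⟩ n
      rfl
    · intro h
      refine ⟨⟨(z 0 : Y), mem_iInter.mpr fun n => ?_⟩, ?_⟩
      · have := h n
        rw [← show (z n : Y) = (z 0 : Y) from h n]
        exact (z n).2
      · funext n
        exact Subtype.ext (h n).symm
  have hclosed : IsClosed (range φ) := by
    rw [hrange]
    apply isClosed_iInter
    intro n
    exact isClosed_eq (continuous_subtype_val.comp (continuous_apply n))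
      (continuous_subtype_val.comp (continuous_apply 0))
  exact (IsClosedEmbedding.mk hemb hclosed).polishSpace

/-- Adding an upper semicontinuous function to a Polish topology keeps it Polish. -/
theorem polish_inf_induced {X : Type} (t : TopologicalSpace X) (ht : @PolishSpace X t)
    (u : X → ℝ) (hu : ∀ r, @IsOpen X t {x | u x < r}) :
    @PolishSpace X (t ⊓ TopologicalSpace.induced u inferInstance) := by
  -- the open sets in the product
  let V : ℕ → Set (X × ℝ) := fun k => {p | u p.1 < p.2 + 1 / ((k : ℝ) + 1)}
  have hW : @IsOpen (X × ℝ) (@instTopologicalSpaceProd X ℝ t _) {p | u p.1 < p.2} := by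
    have : {p : X × ℝ | u p.1 < p.2} = ⋃ q : ℚ, {x | u x < (q : ℝ)} ×ˢ Ioi (q : ℝ) := by
      ext ⟨x, s⟩
      simp only [mem_setOf_eq, mem_iUnion, mem_prod, mem_Ioi]
      constructor
      · intro h
        exact exists_rat_btwn h
      · rintro ⟨q, h1, h2⟩
        exact h1.trans h2
    rw [this]
    exact isOpen_iUnion fun q => (hu q).prod isOpen_Ioi
  have hV : ∀ k, @IsOpen (X × ℝ) (@instTopologicalSpaceProd X ℝ t _) (V k) := by
    intro k
    have hc : Continuous (fun p : X × ℝ => (p.1, p.2 + 1 / ((k : ℝ) + 1))) := by fun_prop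
    exact hW.preimage hc
  haveI := ht
  have hG1 : PolishSpace ({p : X × ℝ | u p.1 < p.2}ᶜ : Set (X × ℝ)) := hW.isClosed_compl.polishSpace
  -- the graph
  let C : Set (X × ℝ) := {p : X × ℝ | u p.1 < p.2}ᶜ
  have hG2 : PolishSpace (⋂ n, (Subtype.val ⁻¹' (V n) : Set C) : Set C) :=
    polish_of_isGdelta _ fun n => (hV n).preimage continuous_subtype_val
  let E : X ≃ (⋂ n, (Subtype.val ⁻¹' (V n) : Set C) : Set C) :=
    { toFun := fun x => ⟨⟨(x, u x), by
          show ¬ (u x < u x)
          exact lt_irrefl _⟩, by
          rw [mem_iInter]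
          intro n
          show u x < u x + 1 / ((n : ℝ) + 1)
          have : (0 : ℝ) < 1 / ((n : ℝ) + 1) := by positivity
          linarith⟩
      invFun := fun y => y.1.1.1
      left_inv := fun x => rfl
      right_inv := by
        rintro ⟨⟨⟨x, s⟩, h1⟩, h2⟩
        have h1' : ¬ (u x < s) := h1
        have h2' : ∀ n : ℕ, u x < s + 1 / ((n : ℝ) + 1) := fun n => mem_iInter.mp h2 n
        have h3 : u x ≤ s := by
          apply le_of_forall_pos_lt_add
          intro ε hε
          obtain ⟨n, hn⟩ := exists_nat_one_div_lt hε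
          exact (h2' n).trans (by linarith)
        have h4 : u x = s := le_antisymm h3 (not_lt.mp h1')
        apply Subtype.ext
        apply Subtype.ext
        exact Prod.ext rfl h4 }
  have h5 := @Equiv.polishSpace_induced X _ _ hG2 E
  have h6 : t ⊓ TopologicalSpace.induced u inferInstance =
      TopologicalSpace.induced E (inferInstance : TopologicalSpace
        (⋂ n, (Subtype.val ⁻¹' (V n) : Set C) : Set C)) := by
    rw [instTopologicalSpaceSubtype, instTopologicalSpaceSubtype, induced_compose, induced_compose,
      instTopologicalSpaceProd, induced_inf, induced_compose, induced_compose]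
    congr 1
    exact (induced_id (t := t)).symm
  rw [h6]
  exact h5

end Pool.Agent.H84R3
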