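import Mathlib

set_option autoImplicit false

open Filter Topology Set

namespace Pool.Agent.H84R3

/-- A bounded right-invariant compatible metric on a first countable topological group. -/
theorem exists_rinv_metric (G : Type) [TopologicalSpace G] [Group G] [IsTopologicalGroup G]
    [FirstCountableTopology G] :
    ∃ D : G → G → ℝ, (∀ g, D g g = 0) ∧ (∀ g h, D g h = D h g) ∧
      (∀ g h k, D g k ≤ D g h + D h k) ∧ (∀ g h, 0 ≤ D g h) ∧
      (∀ g h k, D (g * k) (h * k) = D g h) ∧
      (∀ g r, IsOpen {h | D g h < r}) ∧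
      (∀ g (O : Set G), IsOpen O → g ∈ O → ∃ r > 0, {h | D g h < r} ⊆ O) := by
  letI : UniformSpace G := IsTopologicalGroup.rightUniformSpace G
  have hun : uniformity G = comap (fun p : G × G => p.2 * p.1⁻¹) (𝓝 (1 : G)) :=
    uniformity_eq_comap_nhds_one' G
  haveI : (uniformity G).IsCountablyGenerated := by
    rw [hun]; infer_instance
  letI : PseudoMetricSpace G := UniformSpace.pseudoMetricSpace G
  let m : G → G → ℝ := fun g h => min (dist g h) 1
  have hm0 : ∀ g h, 0 ≤ m g h := fun g h => le_min dist_nonneg zero_le_one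
  have hm1 : ∀ g h, m g h ≤ 1 := fun g h => min_le_right _ _
  have hmt : ∀ g h k, m g k ≤ m g h + m h k := by
    intro g h k
    have h1 := dist_triangle g h k
    have h2 : 0 ≤ dist g h := dist_nonneg
    have h3 : 0 ≤ dist h k := dist_nonneg
    simp only [m]
    rcases min_cases (dist g h) 1 with ⟨e1, _⟩ | ⟨e1, _⟩ <;>
      rcases min_cases (dist h k) 1 with ⟨e2, _⟩ | ⟨e2, _⟩ <;> rw [e1, e2] <;>
      rcases min_cases (dist g k) 1 with ⟨e3, _⟩ | ⟨e3, _⟩ <;> rw [e3] <;> linarith
  have hbdd : ∀ g h, BddAbove (range (fun k => m (g * k) (h * k))) := by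
    intro g h
    refine ⟨1, ?_⟩
    rintro _ ⟨k, rfl⟩
    exact hm1 _ _
  let D : G → G → ℝ := fun g h => ⨆ k, m (g * k) (h * k)
  have hDge : ∀ g h k, m (g * k) (h * k) ≤ D g h := fun g h k => le_ciSup (hbdd g h) k
  have hDle : ∀ g h c, (∀ k, m (g * k) (h * k) ≤ c) → D g h ≤ c := fun g h c hc => ciSup_le hc
  have hD0 : ∀ g h, 0 ≤ D g h := fun g h => (hm0 _ _).trans (hDge g h 1)
  have hDt : ∀ g h k, D g k ≤ D g h + D h k := by
    intro g h k
    apply hDle
    intro l
    exact (hmt _ (h * l) _).trans (add_le_add (hDge g h l) (hDge h k l))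
  -- smallness near the diagonal
  have hsmall : ∀ ε > 0, ∃ V ∈ 𝓝 (1 : G), ∀ g h : G, h * g⁻¹ ∈ V → D g h ≤ ε := by
    intro ε hε
    have h1 : {p : G × G | dist p.1 p.2 < ε} ∈ uniformity G := Metric.dist_mem_uniformity hε
    rw [hun, mem_comap] at h1
    obtain ⟨V, hV, hV2⟩ := h1
    refine ⟨V, hV, fun g h hgh => ?_⟩
    apply hDle
    intro k
    have h2 : (g * k, h * k) ∈ {p : G × G | dist p.1 p.2 < ε} := by
      apply hV2
      show (h * k) * (g * k)⁻¹ ∈ V
      have : (h * k) * (g * k)⁻¹ = h * g⁻¹ := by group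
      rw [this]
      exact hgh
    exact (min_le_left _ _).trans (le_of_lt h2)
  have hsymm : ∀ g h, D g h = D h g := by
    intro g h
    simp only [D, m, dist_comm]
  refine ⟨D, ?_, hsymm, hDt, hD0, ?_, ?_, ?_⟩
  · intro g
    apply le_antisymm _ (hD0 g g)
    apply hDle
    intro k
    exact (min_le_left _ _).trans (le_of_eq (dist_self _))
  · intro g h k
    apply le_antisymm
    · apply hDle
      intro l
      rw [mul_assoc, mul_assoc]
      exact hDge g h (k * l)
    · apply hDle
      intro l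
      have := hDge (g * k) (h * k) (k⁻¹ * l)
      have e1 : g * k * (k⁻¹ * l) = g * l := by group
      have e2 : h * k * (k⁻¹ * l) = h * l := by group
      rw [e1, e2] at this
      exact this
  · intro g r
    rw [isOpen_iff_mem_nhds]
    intro h hh
    have hh' : D g h < r := hh
    obtain ⟨V, hV, hV2⟩ := hsmall ((r - D g h) / 2) (by linarith)
    have h1 : Tendsto (fun l : G => l * h⁻¹) (𝓝 h) (𝓝 1) := by
      have : Tendsto (fun l : G => l * h⁻¹) (𝓝 h) (𝓝 (h * h⁻¹)) :=
        (continuous_mul_const h⁻¹).tendsto h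
      rwa [mul_inv_cancel] at this
    filter_upwards [h1 hV] with l hl
    have h2 := hV2 h l hl
    have h3 := hDt g h l
    show D g l < r
    linarith
  · intro g O hO hgO
    have h1 : O ∈ 𝓝 g := hO.mem_nhds hgO
    rw [Metric.mem_nhds_iff] at h1
    obtain ⟨ε, hε, hεO⟩ := h1
    refine ⟨min ε 1, lt_min hε one_pos, fun h hh => hεO ?_⟩
    have hh' : D g h < min ε 1 := hh
    have h2 := hDge g h 1
    rw [mul_one, mul_one] at h2
    have h3 : min (dist g h) 1 < min ε 1 := lt_of_le_of_lt h2 hh'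
    have h4 : min (dist g h) 1 < 1 := lt_of_lt_of_le h3 (min_le_right _ _)
    have h5 : dist g h < 1 := by
      by_contra hc
      rw [min_eq_right (not_lt.mp hc)] at h4
      exact lt_irrefl _ h4
    rw [min_eq_left h5.le] at h3
    rw [Metric.mem_ball, dist_comm]
    exact lt_of_lt_of_le h3 (min_le_left _ _)

end Pool.Agent.H84R3
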