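import Mathlib

set_option autoImplicit false

open Filter Topology Set

namespace Pool.Agent.H84R3

/-- The additive class `Σ⁰_γ` of `(X, τ)` in the frozen statement's inductive form. -/
def Sig {X : Type} (τ : TopologicalSpace X) (γ : Ordinal.{0}) : Set (Set X) :=
  {b | ∀ S : Ordinal.{0} → Set (Set X),
          (∀ γ : Ordinal.{0}, 1 ≤ γ → ∀ U : Set X, @IsOpen X τ U → U ∈ S γ) →
          (∀ γ : Ordinal.{0}, ∀ f : ℕ → Set X,
            (∀ n : ℕ, ∃ β : Ordinal.{0}, 1 ≤ β ∧ β < γ ∧ (f n)ᶜ ∈ S β) →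
              (⋃ n, f n) ∈ S γ) →
          b ∈ S γ}

variable {X : Type} {τ : TopologicalSpace X}

theorem sig_open {γ : Ordinal.{0}} (h1 : 1 ≤ γ) {U : Set X} (hU : @IsOpen X τ U) : U ∈ Sig τ γ :=
  fun _ hS1 _ => hS1 γ h1 U hU

theorem sig_iUnion {γ : Ordinal.{0}} (f : ℕ → Set X)
    (h : ∀ n, ∃ β : Ordinal.{0}, 1 ≤ β ∧ β < γ ∧ (f n)ᶜ ∈ Sig τ β) : (⋃ n, f n) ∈ Sig τ γ := by
  intro S hS1 hS2
  apply hS2
  intro n
  obtain ⟨β, hβ1, hβγ, hβ⟩ := h n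
  exact ⟨β, hβ1, hβγ, hβ S hS1 hS2⟩

theorem sig_inv {γ : Ordinal.{0}} {P : Set X} (hP : P ∈ Sig τ γ) :
    (1 ≤ γ ∧ @IsOpen X τ P) ∨
      (∃ f : ℕ → Set X, (∀ n, ∃ β : Ordinal.{0}, 1 ≤ β ∧ β < γ ∧ (f n)ᶜ ∈ Sig τ β) ∧
        P = ⋃ n, f n) := by
  have := hP (fun γ => {P | P ∈ Sig τ γ ∧ ((1 ≤ γ ∧ @IsOpen X τ P) ∨
      (∃ f : ℕ → Set X, (∀ n, ∃ β : Ordinal.{0}, 1 ≤ β ∧ β < γ ∧ (f n)ᶜ ∈ Sig τ β) ∧
        P = ⋃ n, f n))}) ?_ ?_
  · exact this.2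
  · intro γ h1 U hU
    exact ⟨sig_open h1 hU, Or.inl ⟨h1, hU⟩⟩
  · intro γ f h
    refine ⟨sig_iUnion f ?_, Or.inr ⟨f, ?_, rfl⟩⟩
    · intro n
      obtain ⟨β, hβ1, hβγ, hβ⟩ := h n
      exact ⟨β, hβ1, hβγ, hβ.1⟩
    · intro n
      obtain ⟨β, hβ1, hβγ, hβ⟩ := h n
      exact ⟨β, hβ1, hβγ, hβ.1⟩

theorem sig_one_le {γ : Ordinal.{0}} {P : Set X} (hP : P ∈ Sig τ γ) : 1 ≤ γ := by
  rcases sig_inv hP with h | ⟨f, hf, _⟩
  · exact h.1
  · obtain ⟨β, hβ1, hβγ, _⟩ := hf 0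
    exact hβ1.trans hβγ.le

theorem sig_mono {γ δ : Ordinal.{0}} (hγδ : γ ≤ δ) {P : Set X} (hP : P ∈ Sig τ γ) :
    P ∈ Sig τ δ := by
  rcases sig_inv hP with h | ⟨f, hf, rfl⟩
  · exact sig_open (h.1.trans hγδ) h.2
  · apply sig_iUnion
    intro n
    obtain ⟨β, hβ1, hβγ, hβ⟩ := hf n
    exact ⟨β, hβ1, hβγ.trans_le hγδ, hβ⟩

theorem sig_of_one {P : Set X} (hP : P ∈ Sig τ 1) : @IsOpen X τ P := by
  rcases sig_inv hP with h | ⟨f, hf, _⟩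
  · exact h.2
  · obtain ⟨β, hβ1, hβγ, _⟩ := hf 0
    exact absurd hβγ (not_lt.mpr hβ1)

theorem sig_compl {β γ : Ordinal.{0}} (h : β < γ) {P : Set X} (hP : P ∈ Sig τ β) :
    Pᶜ ∈ Sig τ γ := by
  have h1 := sig_iUnion (τ := τ) (γ := γ) (fun _ : ℕ => Pᶜ) (fun _ => ⟨β, sig_one_le hP, h, by
    rw [compl_compl]; exact hP⟩)
  rwa [iUnion_const] at h1

/-- For `γ > 1` every `Σ⁰_γ` set is a countable union of sets with complements of lower class. -/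
theorem sig_repr (hτ : @PolishSpace X τ) {γ : Ordinal.{0}} (hγ : 1 < γ) {P : Set X}
    (hP : P ∈ Sig τ γ) :
    ∃ f : ℕ → Set X, (∀ n, ∃ β : Ordinal.{0}, 1 ≤ β ∧ β < γ ∧ (f n)ᶜ ∈ Sig τ β) ∧
        P = ⋃ n, f n := by
  rcases sig_inv hP with h | h
  · letI := TopologicalSpace.upgradeIsCompletelyMetrizable X
    obtain ⟨F, hF, -, hF2, -⟩ := h.2.exists_iUnion_isClosed
    refine ⟨F, fun n => ⟨1, le_refl _, hγ, sig_open le_rfl (hF n).isOpen_compl⟩, hF2.symm⟩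
  · exact h

theorem sig_iUnion_mem (hτ : @PolishSpace X τ) {γ : Ordinal.{0}} (f : ℕ → Set X)
    (h : ∀ n, f n ∈ Sig τ γ) : (⋃ n, f n) ∈ Sig τ γ := by
  rcases (sig_one_le (h 0)).eq_or_lt with h1 | h1
  · subst h1
    exact sig_open le_rfl (isOpen_iUnion fun n => sig_of_one (h n))
  · choose F hF hF2 using fun n => sig_repr hτ h1 (h n)
    have h2 : (⋃ n, f n) = ⋃ k : ℕ, F (Nat.unpair k).1 (Nat.unpair k).2 := by
      ext x
      simp only [mem_iUnion]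
      constructor
      · rintro ⟨n, hn⟩
        rw [hF2 n] at hn
        obtain ⟨m, hm⟩ := mem_iUnion.mp hn
        exact ⟨Nat.pair n m, by simpa using hm⟩
      · rintro ⟨k, hk⟩
        refine ⟨(Nat.unpair k).1, ?_⟩
        rw [hF2]
        exact mem_iUnion.mpr ⟨_, hk⟩
    rw [h2]
    exact sig_iUnion _ fun k => hF _ _

theorem sig_iUnion_countable (hτ : @PolishSpace X τ) {ι : Type} [Countable ι] {γ : Ordinal.{0}}
    (hγ : 1 ≤ γ) (f : ι → Set X) (h : ∀ i, f i ∈ Sig τ γ) : (⋃ i, f i) ∈ Sig τ γ := by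
  rcases isEmpty_or_nonempty ι with he | he
  · rw [iUnion_of_empty]
    exact sig_open hγ isOpen_empty
  · obtain ⟨e, he⟩ := exists_surjective_nat ι
    rw [← he.iUnion_comp]
    exact sig_iUnion_mem hτ _ fun n => h _

theorem sig_union (hτ : @PolishSpace X τ) {γ : Ordinal.{0}} {P Q : Set X}
    (hP : P ∈ Sig τ γ) (hQ : Q ∈ Sig τ γ) : P ∪ Q ∈ Sig τ γ := by
  rw [union_eq_iUnion]
  apply sig_iUnion_countable hτ (sig_one_le hP)
  rintro (_ | _)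
  · exact hQ
  · exact hP

theorem sig_inter (hτ : @PolishSpace X τ) {γ : Ordinal.{0}} {P Q : Set X}
    (hP : P ∈ Sig τ γ) (hQ : Q ∈ Sig τ γ) : P ∩ Q ∈ Sig τ γ := by
  rcases (sig_one_le hP).eq_or_lt with h1 | h1
  · subst h1
    exact sig_open le_rfl ((sig_of_one hP).inter (sig_of_one hQ))
  · obtain ⟨f, hf, rfl⟩ := sig_repr hτ h1 hP
    obtain ⟨g, hg, rfl⟩ := sig_repr hτ h1 hQ
    have h2 : (⋃ n, f n) ∩ (⋃ n, g n) =
        ⋃ k : ℕ, f (Nat.unpair k).1 ∩ g (Nat.unpair k).2 := by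
      ext x
      simp only [mem_iUnion, mem_inter_iff]
      constructor
      · rintro ⟨⟨n, hn⟩, ⟨m, hm⟩⟩
        exact ⟨Nat.pair n m, by simpa using hn, by simpa using hm⟩
      · rintro ⟨k, hk1, hk2⟩
        exact ⟨⟨_, hk1⟩, ⟨_, hk2⟩⟩
    rw [h2]
    apply sig_iUnion
    intro k
    obtain ⟨β, hβ1, hβγ, hβ⟩ := hf (Nat.unpair k).1
    obtain ⟨β', hβ1', hβγ', hβ'⟩ := hg (Nat.unpair k).2
    refine ⟨max β β', hβ1.trans (le_max_left _ _), max_lt hβγ hβγ', ?_⟩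
    rw [compl_inter]
    exact sig_union hτ (sig_mono (le_max_left _ _) hβ) (sig_mono (le_max_right _ _) hβ')

theorem sig_sInter_finite (hτ : @PolishSpace X τ) {γ : Ordinal.{0}} (hγ : 1 ≤ γ)
    {F : Set (Set X)} (hF : F.Finite) (h : ∀ P ∈ F, P ∈ Sig τ γ) : ⋂₀ F ∈ Sig τ γ := by
  induction F, hF using Set.Finite.induction_on with
  | empty =>
    rw [sInter_empty]
    exact sig_open hγ isOpen_univ
  | @insert a s ha hs ih =>
    rw [sInter_insert]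
    exact sig_inter hτ (h a (mem_insert _ _)) (ih fun P hP => h P (mem_insert_of_mem _ hP))

theorem sig_measurable {γ : Ordinal.{0}} {P : Set X} (hP : P ∈ Sig τ γ) :
    @MeasurableSet X (@borel X τ) P := by
  refine hP (fun _ => {P | @MeasurableSet X (@borel X τ) P}) ?_ ?_
  · intro γ _ U hU
    exact MeasurableSpace.measurableSet_generateFrom hU
  · intro γ f h
    refine @MeasurableSet.iUnion _ _ (@borel X τ) _ _ fun n => ?_
    obtain ⟨β, _, _, hβ⟩ := h n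
    exact (@MeasurableSet.compl_iff _ _ (@borel X τ)).mp hβ

end Pool.Agent.H84R3
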