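import Mathlib
import Pool.Agent.H84R3.Sig

set_option autoImplicit false

open Filter Topology Set TopologicalSpace

namespace Pool.Agent.H84R3

variable {X : Type} {τ : TopologicalSpace X}

/-- `t` has a countable subbasis of sets in the class `Σ⁰_γ(τ)`. -/
def HasSub (τ : TopologicalSpace X) (γ : Ordinal.{0}) (t : TopologicalSpace X) : Prop :=
  ∃ 𝒮 : Set (Set X), 𝒮.Countable ∧ t = generateFrom 𝒮 ∧ ∀ s ∈ 𝒮, s ∈ Sig τ γ

theorem hasSub_self (hτ : @PolishSpace X τ) {γ : Ordinal.{0}} (hγ : 1 ≤ γ) : HasSub τ γ τ := by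
  refine ⟨countableBasis X, countable_countableBasis X, (isBasis_countableBasis X).eq_generateFrom,
    fun s hs => sig_open hγ (isOpen_of_mem_countableBasis hs)⟩

theorem hasSub_mono {γ δ : Ordinal.{0}} (h : γ ≤ δ) {t : TopologicalSpace X}
    (ht : HasSub τ γ t) : HasSub τ δ t := by
  obtain ⟨S, h1, h2, h3⟩ := ht
  exact ⟨S, h1, h2, fun s hs => sig_mono h (h3 s hs)⟩

theorem hasSub_inf {γ : Ordinal.{0}} {t t' : TopologicalSpace X}
    (ht : HasSub τ γ t) (ht' : HasSub τ γ t') : HasSub τ γ (t ⊓ t') := by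
  obtain ⟨S, h1, h2, h3⟩ := ht
  obtain ⟨S', h1', h2', h3'⟩ := ht'
  refine ⟨S ∪ S', h1.union h1', ?_, ?_⟩
  · rw [generateFrom_union, ← h2, ← h2']
  · rintro s (hs | hs)
    · exact h3 s hs
    · exact h3' s hs

theorem hasSub_iInf {ι : Type} [Countable ι] {γ : Ordinal.{0}} {t : ι → TopologicalSpace X}
    (ht : ∀ i, HasSub τ γ (t i)) : HasSub τ γ (⨅ i, t i) := by
  choose S h1 h2 h3 using ht
  refine ⟨⋃ i, S i, countable_iUnion h1, ?_, ?_⟩
  · rw [generateFrom_iUnion]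
    exact iInf_congr h2
  · intro s hs
    obtain ⟨i, hi⟩ := mem_iUnion.mp hs
    exact h3 i s hi

theorem hasSub_induced (hτ : @PolishSpace X τ) {γ : Ordinal.{0}} (u : X → ℝ)
    (h1 : ∀ r : ℚ, {x | u x < r} ∈ Sig τ γ) (h2 : ∀ r : ℚ, {x | (r : ℝ) < u x} ∈ Sig τ γ) :
    HasSub τ γ (TopologicalSpace.induced u inferInstance) := by
  refine ⟨preimage u '' (⋃ (a : ℚ) (b : ℚ) (_ : a < b), {Ioo (a : ℝ) b}), ?_, ?_, ?_⟩
  · apply Countable.image
    exact countable_iUnion fun a => countable_iUnion fun b => countable_iUnion fun _ =>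
      countable_singleton _
  · rw [← induced_generateFrom_eq, ← Real.isTopologicalBasis_Ioo_rat.eq_generateFrom]
  · rintro _ ⟨I, hI, rfl⟩
    simp only [mem_iUnion, mem_singleton_iff] at hI
    obtain ⟨a, b, _, rfl⟩ := hI
    have : u ⁻¹' Ioo (a : ℝ) b = {x | (a : ℝ) < u x} ∩ {x | u x < b} := by
      ext x; simp
    rw [this]
    exact sig_inter hτ (h2 a) (h1 b)

theorem hasSub_basis (hτ : @PolishSpace X τ) {γ : Ordinal.{0}} (hγ : 1 ≤ γ)
    {t : TopologicalSpace X} (ht : HasSub τ γ t) :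
    ∃ B : Set (Set X), B.Countable ∧ @IsTopologicalBasis X t B ∧ ∀ b ∈ B, b ∈ Sig τ γ := by
  obtain ⟨S, h1, h2, h3⟩ := ht
  refine ⟨(fun f => ⋂₀ f) '' { f : Set (Set X) | f.Finite ∧ f ⊆ S }, ?_,
    @isTopologicalBasis_of_subbasis X t S h2, ?_⟩
  · exact (countable_ofPred_finite_subset h1).image _
  · rintro _ ⟨F, ⟨hF, hFS⟩, rfl⟩
    exact sig_sInter_finite hτ hγ hF fun P hP => h3 P (hFS hP)

end Pool.Agent.H84R3
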