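import Mathlib

set_option autoImplicit false

open Filter Topology Set

namespace Pool.Agent.H84R3

section
variable {G X : Type}

/-- the set of group elements moving `x` into `B` -/
def NN (a : G × X → X) (B : Set X) (x : X) : Set G := {g | a (g, x) ∈ B}

/-- the Vaught transform -/
def VT [TopologicalSpace G] (a : G × X → X) (B : Set X) (W : Set G) : Set X :=
  {x : X | ¬ IsMeagre {g : G | g ∈ W ∧ a (g, x) ∈ B}}

/-- the admissible radii -/
def RR [TopologicalSpace G] (D : G → G → ℝ) (a : G × X → X) (B : Set X) (g : G) (x : X) : Set ℝ :=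
  {r | 0 ≤ r ∧ r ≤ 1 ∧ IsMeagre {h : G | h ∈ {h | D g h < r} ∧ a (h, x) ∈ B}}

/-- the sup of radii of balls on which `{h | a (h,x) ∈ B}` is meagre -/
noncomputable def UU [TopologicalSpace G] (D : G → G → ℝ) (a : G × X → X) (B : Set X)
    (g : G) (x : X) : ℝ := sSup (RR D a B g x)

variable [TopologicalSpace G] {D : G → G → ℝ} {a : G × X → X} {B : Set X}

theorem zero_mem_RR (hD0 : ∀ g h, 0 ≤ D g h) (g : G) (x : X) : (0 : ℝ) ∈ RR D a B g x := by
  refine ⟨le_rfl, zero_le_one, ?_⟩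
  have : {h : G | h ∈ {h | D g h < 0} ∧ a (h, x) ∈ B} = ∅ := by
    ext h
    simp only [mem_ofPred_eq, mem_empty_iff_false, iff_false, not_and]
    intro h1
    exact absurd h1 (not_lt.mpr (hD0 _ _))
  rw [this]
  exact IsMeagre.empty

theorem bddAbove_RR (g : G) (x : X) : BddAbove (RR D a B g x) := ⟨1, fun _ hr => hr.2.1⟩

theorem UU_nonneg (hD0 : ∀ g h, 0 ≤ D g h) (g : G) (x : X) : 0 ≤ UU D a B g x :=
  le_csSup (bddAbove_RR g x) (zero_mem_RR hD0 g x)

theorem UU_le_one (hD0 : ∀ g h, 0 ≤ D g h) (g : G) (x : X) : UU D a B g x ≤ 1 :=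
  csSup_le ⟨0, zero_mem_RR hD0 g x⟩ fun _ hr => hr.2.1

theorem RR_mono {r s : ℝ} {g : G} {x : X} (hr0 : 0 ≤ r) (hrs : r ≤ s) (hs : s ∈ RR D a B g x) :
    r ∈ RR D a B g x := by
  refine ⟨hr0, hrs.trans hs.2.1, hs.2.2.mono ?_⟩
  rintro h ⟨h1, h2⟩
  exact ⟨lt_of_lt_of_le h1 hrs, h2⟩

theorem lt_UU_iff (hD0 : ∀ g h, 0 ≤ D g h) {s : ℝ} (hs : 0 ≤ s) (g : G) (x : X) :
    s < UU D a B g x ↔ ∃ q : ℚ, s < q ∧ (q : ℝ) ≤ 1 ∧ x ∉ VT a B {h | D g h < q} := by
  constructor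
  · intro h
    obtain ⟨r, hr, hsr⟩ := exists_lt_of_lt_csSup ⟨0, zero_mem_RR hD0 g x⟩ h
    obtain ⟨q, hq1, hq2⟩ := exists_rat_btwn hsr
    have h1 := RR_mono (hs.trans hq1.le) hq2.le hr
    exact ⟨q, hq1, h1.2.1, not_not.mpr h1.2.2⟩
  · rintro ⟨q, hq1, hq2, hq3⟩
    have : (q : ℝ) ∈ RR D a B g x := ⟨hs.trans hq1.le, hq2, not_not.mp hq3⟩
    exact lt_of_lt_of_le hq1 (le_csSup (bddAbove_RR g x) this)

theorem UU_lt_iff (hD0 : ∀ g h, 0 ≤ D g h) {s : ℝ} (hs : 0 < s) (hs1 : s ≤ 1) (g : G) (x : X) :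
    UU D a B g x < s ↔ x ∈ VT a B {h | D g h < s} := by
  constructor
  · intro h hm
    have : s ∈ RR D a B g x := ⟨hs.le, hs1, hm⟩
    exact absurd (le_csSup (bddAbove_RR g x) this) (not_le.mpr h)
  · intro hm
    by_contra hcon
    push Not at hcon
    apply hm
    have h1 : {h : G | h ∈ {h | D g h < s} ∧ a (h, x) ∈ B} ⊆
        ⋃ k : ℕ, {h : G | h ∈ {h | D g h < s - 1 / ((k : ℝ) + 1)} ∧ a (h, x) ∈ B} := by
      rintro h ⟨h1, h2⟩
      have h1' : D g h < s := h1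
      obtain ⟨n, hn⟩ := exists_nat_one_div_lt (sub_pos.mpr h1')
      refine mem_iUnion.mpr ⟨n, ?_, h2⟩
      show D g h < s - 1 / ((n : ℝ) + 1)
      linarith
    refine IsMeagre.mono h1 (isMeagre_iUnion fun k => ?_)
    have hk : (0 : ℝ) < 1 / ((k : ℝ) + 1) := by positivity
    have h2 : s - 1 / ((k : ℝ) + 1) < UU D a B g x := by linarith
    rcases le_or_gt 0 (s - 1 / ((k : ℝ) + 1)) with h3 | h3
    · obtain ⟨r, hr, hsr⟩ := exists_lt_of_lt_csSup ⟨0, zero_mem_RR hD0 g x⟩ h2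
      exact (RR_mono h3 hsr.le hr).2.2
    · have : {h : G | h ∈ {h | D g h < s - 1 / ((k : ℝ) + 1)} ∧ a (h, x) ∈ B} = ∅ := by
        ext h
        simp only [mem_ofPred_eq, mem_empty_iff_false, iff_false, not_and]
        intro h1
        exact absurd (h1.trans h3) (not_lt.mpr (hD0 _ _))
      rw [this]
      exact IsMeagre.empty

theorem UU_lip (hD0 : ∀ g h, 0 ≤ D g h) (hDt : ∀ g h k, D g k ≤ D g h + D h k)
    (g g' : G) (x : X) : UU D a B g x ≤ UU D a B g' x + D g g' := by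
  apply csSup_le ⟨0, zero_mem_RR hD0 g x⟩
  intro r hr
  rcases le_or_gt 0 (r - D g g') with h | h
  · have : r - D g g' ∈ RR D a B g' x := by
      refine ⟨h, by linarith [hr.2.1, hD0 g g'], hr.2.2.mono ?_⟩
      rintro k ⟨h1, h2⟩
      refine ⟨?_, h2⟩
      have h1' : D g' k < r - D g g' := h1
      show D g k < r
      linarith [hDt g g' k]
    have h5 : r - D g g' ≤ UU D a B g' x := le_csSup (bddAbove_RR g' x) this
    linarith
  · linarith [UU_nonneg (a := a) (B := B) hD0 g' x]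

theorem UU_equiv [Group G] [IsTopologicalGroup G]
    (hDr : ∀ g h k, D (g * k) (h * k) = D g h)
    (ha : ∀ (g h : G) (x : X), a (g * h, x) = a (g, a (h, x))) (g h : G) (x : X) :
    UU D a B g (a (h, x)) = UU D a B (g * h) x := by
  unfold UU
  congr 1
  ext r
  unfold RR
  simp only [mem_ofPred_eq]
  refine and_congr_right fun _ => and_congr_right fun _ => ?_
  have h1 : {k : G | D g k < r ∧ a (k, a (h, x)) ∈ B} =
      (Homeomorph.mulRight h) ⁻¹' {k : G | D (g * h) k < r ∧ a (k, x) ∈ B} := by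
    ext k
    simp only [mem_ofPred_eq, mem_preimage, Homeomorph.coe_mulRight, hDr, ha]
  have h2 : {k : G | D (g * h) k < r ∧ a (k, x) ∈ B} =
      (Homeomorph.mulRight h).symm ⁻¹' {k : G | D g k < r ∧ a (k, a (h, x)) ∈ B} := by
    rw [h1, ← preimage_comp, Homeomorph.self_comp_symm, preimage_id]
  constructor
  · intro hm
    rw [h2]
    exact hm.preimage_of_isOpenMap (Homeomorph.mulRight h).symm.continuous
      (Homeomorph.mulRight h).symm.isOpenMap
  · intro hm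
    rw [h1]
    exact hm.preimage_of_isOpenMap (Homeomorph.mulRight h).continuous
      (Homeomorph.mulRight h).isOpenMap

/-- The Vaught transform of a union of complements in terms of `UU`. -/
theorem VT_iUnion [BaireSpace G] (hD0 : ∀ g h, 0 ≤ D g h) (hDs : ∀ g, D g g = 0)
    (hDo : ∀ g r, IsOpen {h | D g h < r})
    (hDb : ∀ g (O : Set G), IsOpen O → g ∈ O → ∃ r > 0, {h | D g h < r} ⊆ O)
    (Q : Set G) (hQ : Dense Q)
    (f : ℕ → Set X) (hf : ∀ n x, @MeasurableSet G (borel G) {g | a (g, x) ∈ f n})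
    {W : Set G} (hW : IsOpen W) :
    VT a (⋃ n, f n) W = ⋃ n, ⋃ g : (Q ∩ W : Set G), {x | 0 < UU D a (f n)ᶜ g x} := by
  ext x
  simp only [mem_iUnion, mem_ofPred_eq]
  constructor
  · intro h
    have h1 : {g : G | g ∈ W ∧ a (g, x) ∈ ⋃ n, f n} = ⋃ n, {g | g ∈ W ∧ a (g, x) ∈ f n} := by
      ext g
      simp only [mem_iUnion, mem_ofPred_eq]
      tauto
    have h2 : ∃ n, ¬ IsMeagre {g | g ∈ W ∧ a (g, x) ∈ f n} := by
      by_contra hcon
      push Not at hcon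
      apply h
      rw [h1]
      exact isMeagre_iUnion hcon
    obtain ⟨n, hn⟩ := h2
    letI : MeasurableSpace G := borel G
    haveI : BorelSpace G := ⟨rfl⟩
    obtain ⟨u, hu, hfu⟩ := (hf n x).residualEq_isOpen
    have h3 : (W ∩ u).Nonempty := by
      by_contra hcon
      rw [not_nonempty_iff_eq_empty] at hcon
      apply hn
      have h4 : {g | g ∈ W ∧ a (g, x) ∈ f n} ∩ {g | (g ∈ {g | a (g, x) ∈ f n}) = (g ∈ u)} = ∅ := by
        ext g
        simp only [mem_inter_iff, mem_ofPred_eq, mem_empty_iff_false, iff_false, not_and]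
        rintro ⟨h5, h6⟩ h7
        have : g ∈ W ∩ u := ⟨h5, h7 ▸ h6⟩
        rw [hcon] at this
        exact this
      have h5 : {g | (g ∈ {g | a (g, x) ∈ f n}) = (g ∈ u)} ∈ residual G := hfu
      show {g | g ∈ W ∧ a (g, x) ∈ f n}ᶜ ∈ residual G
      refine mem_of_superset h5 ?_
      intro g hg hg2
      have : g ∈ ({g | g ∈ W ∧ a (g, x) ∈ f n} ∩
        {g | (g ∈ {g | a (g, x) ∈ f n}) = (g ∈ u)} : Set G) := ⟨hg2, hg⟩
      rw [h4] at this
      exact this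
    obtain ⟨g₀, hg₀⟩ := hQ.inter_open_nonempty (W ∩ u) (hW.inter hu) h3
    obtain ⟨r, hr, hball⟩ := hDb g₀ (W ∩ u) (hW.inter hu) hg₀.1
    refine ⟨n, ⟨g₀, hg₀.2, hg₀.1.1⟩, ?_⟩
    have h6 : min r 1 ∈ RR D a (f n)ᶜ g₀ x := by
      refine ⟨(lt_min hr one_pos).le, min_le_right _ _, ?_⟩
      have h5 : {g | (g ∈ {g | a (g, x) ∈ f n}) = (g ∈ u)} ∈ residual G := hfu
      show {h : G | h ∈ {h | D g₀ h < min r 1} ∧ a (h, x) ∈ (f n)ᶜ}ᶜ ∈ residual G
      refine mem_of_superset h5 ?_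
      rintro g hg ⟨h7, h8⟩
      have h7' : D g₀ g < min r 1 := h7
      have h9 : g ∈ W ∩ u := hball (show D g₀ g < r from lt_of_lt_of_le h7' (min_le_left _ _))
      have h10 : (g ∈ {g | a (g, x) ∈ f n}) = (g ∈ u) := hg
      exact h8 (h10.symm ▸ h9.2 : g ∈ {g | a (g, x) ∈ f n})
    exact lt_of_lt_of_le (lt_min hr one_pos) (le_csSup (bddAbove_RR g₀ x) h6)
  · rintro ⟨n, ⟨g, hgQ, hgW⟩, hpos⟩ hm
    obtain ⟨r, hr, hr0⟩ := exists_lt_of_lt_csSup ⟨0, zero_mem_RR hD0 g x⟩ hpos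
    have hm1 : IsMeagre {h : G | h ∈ {h | D g h < r} ∧ a (h, x) ∈ (f n)ᶜ} := hr.2.2
    have hm2 : IsMeagre ({h : G | D g h < r} ∩ W) := by
      refine IsMeagre.mono ?_ (hm1.union hm)
      rintro h ⟨h1, h2⟩
      by_cases h3 : a (h, x) ∈ f n
      · exact Or.inr ⟨h2, mem_iUnion.mpr ⟨n, h3⟩⟩
      · exact Or.inl ⟨h1, h3⟩
    refine not_isMeagre_of_isOpen ((hDo g r).inter hW) ⟨g, ?_, hgW⟩ hm2
    show D g g < r
    rw [hDs]
    exact hr0

end

end Pool.Agent.H84R3
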