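import Mathlib
import Pool.Agent.H84R3.Sig
import Pool.Agent.H84R3.SubB
import Pool.Agent.H84R3.PolLem
import Pool.Agent.H84R3.Vau
import Pool.Agent.H84R3.RInv

set_option autoImplicit false

open Filter Topology Set TopologicalSpace

namespace Pool.Agent.H84R3

/-- the inductive property -/
def GoodV {G X : Type} [tG : TopologicalSpace G] (τ : TopologicalSpace X) (a : G × X → X)
    (γ : Ordinal.{0}) (A : Set X) : Prop :=
  A ∈ Sig τ γ ∧ ∃ t : TopologicalSpace X, @PolishSpace X t ∧ t ≤ τ ∧ HasSub τ γ t ∧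
    @Continuous (G × X) X
      (TopologicalSpace.induced Prod.fst tG ⊓ TopologicalSpace.induced Prod.snd t) t a ∧
    ∀ W : Set G, IsOpen W → @IsOpen X t (VT a A W) ∧ VT a A W ∈ Sig τ γ

theorem goodV_open {G X : Type} [tG : TopologicalSpace G] [BaireSpace G]
    (τ : TopologicalSpace X) (hτ : @PolishSpace X τ) (a : G × X → X)
    (hc : @Continuous (G × X) X
      (TopologicalSpace.induced Prod.fst tG ⊓ TopologicalSpace.induced Prod.snd τ) τ a)
    {γ : Ordinal.{0}} (hγ : 1 ≤ γ) {U : Set X} (hU : @IsOpen X τ U) : GoodV τ a γ U := by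
  have hca : ∀ g : G, Continuous (fun x => a (g, x)) := fun g =>
    Continuous.comp (show Continuous a from hc) (by fun_prop : Continuous (fun x : X => (g, x)))
  have hcg : ∀ x : X, Continuous (fun g => a (g, x)) := fun x =>
    Continuous.comp (show Continuous a from hc) (by fun_prop : Continuous (fun g : G => (g, x)))
  have key : ∀ W : Set G, IsOpen W → @IsOpen X τ (VT a U W) := by
    intro W hW
    have : VT a U W = ⋃ g : W, (fun x => a (g, x)) ⁻¹' U := by
      ext x
      simp only [mem_iUnion, mem_preimage]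
      constructor
      · intro h
        obtain ⟨g, hg1, hg2⟩ := nonempty_of_not_isMeagre h
        exact ⟨⟨g, hg1⟩, hg2⟩
      · rintro ⟨⟨g, hg1⟩, hg2⟩
        refine not_isMeagre_of_isOpen (hW.inter (hU.preimage (hcg x))) ⟨g, hg1, hg2⟩
    rw [this]
    exact isOpen_iUnion fun g => hU.preimage (hca g)
  exact ⟨sig_open hγ hU, τ, hτ, le_rfl, hasSub_self hτ hγ, hc,
    fun W hW => ⟨key W hW, sig_open hγ (key W hW)⟩⟩

theorem goodV_step {G X : Type} [tG : TopologicalSpace G] [Group G] [IsTopologicalGroup G]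
    [PolishSpace G]
    (τ : TopologicalSpace X) (hτ : @PolishSpace X τ) (a : G × X → X)
    (ham : ∀ (g h : G) (x : X), a (g * h, x) = a (g, a (h, x)))
    (hc : @Continuous (G × X) X
      (TopologicalSpace.induced Prod.fst tG ⊓ TopologicalSpace.induced Prod.snd τ) τ a)
    {γ : Ordinal.{0}} (f : ℕ → Set X)
    (h : ∀ n, ∃ β : Ordinal.{0}, 1 ≤ β ∧ β < γ ∧ GoodV τ a β (f n)ᶜ) :
    GoodV τ a γ (⋃ n, f n) := by
  obtain ⟨D, hDs, hDsy, hDt, hD0, hDr, hDo, hDb⟩ := exists_rinv_metric G
  choose β hβ1 hβγ hβ using h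
  choose hS t htP htτ htS htc htV using hβ
  have hγ : 1 ≤ γ := (hβ1 0).trans (hβγ 0).le
  have hcg : ∀ x : X, Continuous (fun g => a (g, x)) := fun x =>
    Continuous.comp (show Continuous a from hc) (by fun_prop : Continuous (fun g : G => (g, x)))
  -- the infimum topology
  let T : Option ℕ → TopologicalSpace X := fun i => i.elim τ t
  let tI : TopologicalSpace X := ⨅ i, T i
  have htI : @PolishSpace X tI := by
    refine PolishSpace.iInf ⟨none, ?_⟩ ?_
    · rintro (_ | n)
      · exact le_rfl
      · exact htτ n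
    · rintro (_ | n)
      · exact hτ
      · exact htP n
  have htIτ : tI ≤ τ := iInf_le T none
  have htIn : ∀ n, tI ≤ t n := fun n => iInf_le T (some n)
  have htIS : HasSub τ γ tI := by
    refine hasSub_iInf ?_
    rintro (_ | n)
    · exact hasSub_self hτ hγ
    · exact hasSub_mono (hβγ n).le (htS n)
  obtain ⟨Q, hQc, hQd⟩ := exists_countable_dense G
  haveI : Countable Q := hQc.to_subtype
  let U : ℕ → G → X → ℝ := fun n g x => UU D a (f n)ᶜ g x
  -- sublevel sets
  have hlow : ∀ n g (r : ℝ), @IsOpen X (t n) {x | U n g x < r} ∧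
      {x | U n g x < r} ∈ Sig τ (β n) := by
    intro n g r
    rcases le_or_gt r 0 with h0 | h0
    · have : {x | U n g x < r} = ∅ := by
        ext x
        simp only [mem_ofPred_eq, mem_empty_iff_false, iff_false, not_lt]
        exact h0.trans (UU_nonneg hD0 g x)
      rw [this]
      exact ⟨@isOpen_empty X (t n), sig_open (hβ1 n) (@isOpen_empty X τ)⟩
    · rcases le_or_gt r 1 with h1 | h1
      · have : {x | U n g x < r} = VT a (f n)ᶜ {h | D g h < r} := by
          ext x
          exact UU_lt_iff hD0 h0 h1 g x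
        rw [this]
        exact htV n _ (hDo g r)
      · have : {x | U n g x < r} = univ := by
          ext x
          simp only [mem_ofPred_eq, mem_univ, iff_true]
          exact (UU_le_one hD0 g x).trans_lt h1
        rw [this]
        exact ⟨@isOpen_univ X (t n), sig_open (hβ1 n) (@isOpen_univ X τ)⟩
  have hup : ∀ n g (s : ℝ), {x | s < U n g x} ∈ Sig τ γ := by
    intro n g s
    rcases lt_or_ge s 0 with h0 | h0
    · have : {x | s < U n g x} = univ := by
        ext x
        simp only [mem_ofPred_eq, mem_univ, iff_true]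
        exact h0.trans_le (UU_nonneg hD0 g x)
      rw [this]
      exact sig_open hγ (@isOpen_univ X τ)
    · have : {x | s < U n g x} =
          ⋃ q : {q : ℚ // s < q ∧ (q : ℝ) ≤ 1}, (VT a (f n)ᶜ {h | D g h < (q : ℚ)})ᶜ := by
        ext x
        simp only [mem_ofPred_eq, mem_iUnion, mem_compl_iff]
        rw [show U n g x = UU D a (f n)ᶜ g x from rfl, lt_UU_iff hD0 h0 g x]
        constructor
        · rintro ⟨q, h1, h2, h3⟩
          exact ⟨⟨q, h1, h2⟩, h3⟩
        · rintro ⟨⟨q, h1, h2⟩, h3⟩
          exact ⟨q, h1, h2, h3⟩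
      rw [this]
      exact sig_iUnion_countable hτ hγ _ fun q => sig_compl (hβγ n) (htV n _ (hDo g _)).2
  -- the new topology
  let T' : Option (ℕ × Q) → TopologicalSpace X := fun i =>
    i.elim tI (fun p => tI ⊓ TopologicalSpace.induced (U p.1 p.2) inferInstance)
  let t' : TopologicalSpace X := ⨅ i, T' i
  have ht' : @PolishSpace X t' := by
    refine PolishSpace.iInf ⟨none, ?_⟩ ?_
    · rintro (_ | p)
      · exact le_rfl
      · exact inf_le_left
    · rintro (_ | p)
      · exact htI
      · exact polish_inf_induced tI htI _ fun r => htIn p.1 _ (hlow p.1 p.2 r).1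
  have ht'I : t' ≤ tI := iInf_le T' none
  have ht'U : ∀ n (g : Q), t' ≤ TopologicalSpace.induced (U n g) inferInstance := fun n g =>
    (iInf_le T' (some (n, g))).trans inf_le_right
  have ht'S : HasSub τ γ t' := by
    refine hasSub_iInf ?_
    rintro (_ | p)
    · exact htIS
    · exact hasSub_inf htIS (hasSub_induced hτ _
        (fun r => sig_mono (hβγ p.1).le (hlow p.1 p.2 r).2) (fun r => hup p.1 p.2 r))
  have hUc : ∀ n (g : Q), @Continuous X ℝ t' _ (U n g) := fun n g =>
    continuous_iff_le_induced.mpr (ht'U n g)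
  -- continuity of the action
  have hUjoint : ∀ n (g : G), @Continuous (G × X) ℝ
      (TopologicalSpace.induced Prod.fst tG ⊓ TopologicalSpace.induced Prod.snd t') _
      (fun p => U n g (a p)) := by
    intro n g
    letI := t'
    show Continuous (fun p : G × X => U n g (a p))
    have h1 : ∀ (k : G) (x : X), U n g (a (k, x)) = U n (g * k) x := fun k x =>
      UU_equiv hDr ham g k x
    rw [continuous_iff_continuousAt]
    rintro ⟨k₀, x₀⟩
    rw [Metric.continuousAt_iff']
    intro ε hε
    obtain ⟨g', hg'Q, hg'⟩ := hQd.exists_mem_open (hDo (g * k₀) (ε / 4))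
      ⟨g * k₀, by show D _ _ < _; rw [hDs]; positivity⟩
    have hg'1 : D (g * k₀) g' < ε / 4 := hg'
    have h2 : ∀ᶠ k : G in 𝓝 k₀, D g' (g * k) < ε / 4 := by
      have : IsOpen {k : G | D g' (g * k) < ε / 4} :=
        (hDo g' (ε / 4)).preimage (continuous_const_mul g)
      exact this.mem_nhds (by show D _ _ < _; rw [hDsy]; exact hg'1)
    have h3 : ∀ᶠ x : X in 𝓝 x₀, dist (U n g' x) (U n g' x₀) < ε / 4 := by
      have := (hUc n ⟨g', hg'Q⟩).continuousAt (x := x₀)
      rw [Metric.continuousAt_iff'] at this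
      exact this (ε / 4) (by positivity)
    rw [nhds_prod_eq]
    filter_upwards [h2.prod_mk h3] with p hp
    obtain ⟨hp1, hp2⟩ := hp
    rw [show U n g (a p) = U n (g * p.1) p.2 from h1 p.1 p.2, h1 k₀ x₀]
    rw [Real.dist_eq, abs_lt] at *
    have l1 := UU_lip (a := a) (B := (f n)ᶜ) hD0 hDt (g * p.1) g' p.2
    have l2 := UU_lip (a := a) (B := (f n)ᶜ) hD0 hDt g' (g * p.1) p.2
    have l3 := UU_lip (a := a) (B := (f n)ᶜ) hD0 hDt (g * k₀) g' x₀
    have l4 := UU_lip (a := a) (B := (f n)ᶜ) hD0 hDt g' (g * k₀) x₀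
    rw [hDsy (g * p.1) g'] at l1
    rw [hDsy g' (g * k₀)] at l4
    simp only [U] at *
    constructor <;> linarith [hp2.1, hp2.2]
  have hact : @Continuous (G × X) X
      (TopologicalSpace.induced Prod.fst tG ⊓ TopologicalSpace.induced Prod.snd t') t' a := by
    have hmono : ∀ t₁ : TopologicalSpace X, t' ≤ t₁ →
        TopologicalSpace.induced (Prod.fst : G × X → G) tG ⊓
          TopologicalSpace.induced (Prod.snd : G × X → X) t' ≤
        TopologicalSpace.induced (Prod.fst : G × X → G) tG ⊓
          TopologicalSpace.induced (Prod.snd : G × X → X) t₁ := fun t₁ h1 =>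
      inf_le_inf_left _ (induced_mono h1)
    have hI : @Continuous (G × X) X
      (TopologicalSpace.induced Prod.fst tG ⊓ TopologicalSpace.induced Prod.snd t') tI a := by
      refine continuous_iInf_rng.mpr ?_
      rintro (_ | n)
      · exact continuous_le_dom (hmono _ (ht'I.trans htIτ)) hc
      · exact continuous_le_dom (hmono _ (ht'I.trans (htIn n))) (htc n)
    refine continuous_iInf_rng.mpr ?_
    rintro (_ | p)
    · exact hI
    · exact (@continuous_inf_rng (G × X) X a (TopologicalSpace.induced Prod.fst tG ⊓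
        TopologicalSpace.induced Prod.snd t') tI
        (TopologicalSpace.induced (U p.1 p.2) inferInstance)).mpr
        ⟨hI, continuous_induced_rng.mpr (hUjoint p.1 p.2)⟩
  refine ⟨sig_iUnion f fun n => ⟨β n, hβ1 n, hβγ n, hS n⟩, t', ht', ht'I.trans htIτ, ht'S, hact, ?_⟩
  intro W hW
  have hmeas : ∀ n x, @MeasurableSet G (borel G) {g | a (g, x) ∈ f n} := by
    intro n x
    have h1 : @MeasurableSet X (@borel X τ) (f n) :=
      (@MeasurableSet.compl_iff _ _ (@borel X τ)).mp (sig_measurable (hS n))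
    letI : MeasurableSpace G := borel G
    haveI : BorelSpace G := ⟨rfl⟩
    exact (@Continuous.measurable G X tG _ _ τ (@borel X τ) (@BorelSpace.mk X τ (@borel X τ) rfl) _
      (hcg x)) h1
  have hVT := VT_iUnion hD0 hDs hDo hDb Q hQd f hmeas hW
  have hcount : Countable (Q ∩ W : Set G) := (hQc.mono inter_subset_left).to_subtype
  rw [hVT]
  constructor
  · refine @isOpen_iUnion _ _ t' _ fun n => @isOpen_iUnion _ _ t' _ fun g => ?_
    exact (isOpen_Ioi (a := (0 : ℝ))).preimage (hUc n ⟨g, g.2.1⟩)
  · exact sig_iUnion_mem hτ _ fun n => sig_iUnion_countable hτ hγ _ fun g => hup n g 0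

end Pool.Agent.H84R3
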